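import Pool.Agent.U162.PL.Ex
import Pool.Agent.U162.PL.Mem

/-!
Solvability near a given element
-/

open MeasureTheory Set Filter Topology
open scoped ENNReal NNReal ContDiff

namespace Pool.Agent.U162.LX

open Pool.Agent.H356R3.NS Pool.Agent.U162.TS Pool.Agent.U162.TS.EL Pool.Agent.U162.PL

variable {c : ℝ} (hc : 0 < c)

/-- solvability near a given element, uniformly on bounded sets -/
theorem solve_near {M : ℝ} (hM : 0 ≤ M) : ∃ L : ℝ, 0 < L ∧ ∀ z₀ U : EE, ‖z₀‖ ≤ M → L * ‖U - Phi hc z₀‖ ≤ 1 →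
    ∃ z : EE, Phi hc z = U ∧ ‖z - z₀‖ ≤ L * ‖U - Phi hc z₀‖ := by
  obtain ⟨μ, hμ, hL⟩ := LL_contr' hc (M := M + 1) (by linarith)
  set Kc := Real.exp (μ ^ 2 * (2 / c)) with hK
  have hK0 : 0 < Kc := Real.exp_pos _
  refine ⟨2 * Kc, by positivity, fun z₀ U hz₀ hU => ?_⟩
  set δ := ‖U - Phi hc z₀‖ with hδ
  have hδ0 : 0 ≤ δ := norm_nonneg _
  have hnorm : ∀ x : EE, ‖x‖ ≤ Kc * nT hc μ x := fun x => by
    have h3 := nT_ge hc μ x
    have h5 := mul_le_mul_of_nonneg_left h3 hK0.le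
    rw [← mul_assoc, hK, ← Real.exp_add, add_neg_cancel, Real.exp_zero, one_mul] at h5
    exact h5
  obtain ⟨zs, hz0, hzs⟩ : ∃ zs : ℕ → EE, zs 0 = z₀ ∧ ∀ n, zs (n + 1) = U + BB hc (zs n) (zs n) :=
    ⟨fun n => Nat.rec z₀ (fun _ z => U + BB hc z z) n, rfl, fun n => rfl⟩
  have hLL : ∀ x y : EE, LL hc x y (x - y) = BB hc x x - BB hc y y := fun x y => by
    rw [LL_apply, map_sub (BB hc x), map_sub (BB hc), sub_apply]
    abel
  have hd0 : U + BB hc z₀ z₀ - z₀ = U - Phi hc z₀ := by unfold Phi; abel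
  have h1 : ∀ n, nT hc μ (zs n - z₀) ≤ 2 * δ ∧ ‖zs n‖ ≤ M + 1 := by
    have aux : ∀ n, nT hc μ (zs n - z₀) ≤ 2 * δ → ‖zs n‖ ≤ M + 1 := fun n h => by
      have h2 : ‖zs n - z₀‖ ≤ 1 := (hnorm _).trans (by
        calc Kc * nT hc μ (zs n - z₀) ≤ Kc * (2 * δ) := mul_le_mul_of_nonneg_left h hK0.le
          _ = 2 * Kc * δ := by ring
          _ ≤ 1 := hU)
      calc ‖zs n‖ = ‖(zs n - z₀) + z₀‖ := by rw [sub_add_cancel]
        _ ≤ ‖zs n - z₀‖ + ‖z₀‖ := norm_add_le _ _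
        _ ≤ M + 1 := by linarith
    intro n
    induction n with
    | zero =>
      have : nT hc μ (zs 0 - z₀) ≤ 2 * δ := by
        rw [hz0, sub_self]
        refine (nT_le hc μ _).trans ?_
        rw [norm_zero]; positivity
      exact ⟨this, aux 0 this⟩
    | succ n ih =>
      have h2 : zs (n + 1) - z₀ = (U - Phi hc z₀) + LL hc (zs n) z₀ (zs n - z₀) := by
        rw [hzs, hLL, ← hd0]; abel
      have h3 : nT hc μ (zs (n + 1) - z₀) ≤ 2 * δ := by
        rw [h2]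
        refine (nT_add hc _ _ _).trans ?_
        have a1 := nT_le hc μ (U - Phi hc z₀)
        have a2 := hL (zs n) z₀ ih.2 (by linarith) (zs n - z₀)
        linarith [ih.1]
      exact ⟨h3, aux _ h3⟩
  have h2 : ∀ n, nT hc μ (zs (n + 1) - zs n) ≤ δ * (1 / 2) ^ n := by
    intro n
    induction n with
    | zero =>
      rw [hzs, hz0, hd0, pow_zero, mul_one]
      exact nT_le hc μ _
    | succ n ih =>
      have e : zs (n + 1 + 1) - zs (n + 1) = LL hc (zs (n + 1)) (zs n) (zs (n + 1) - zs n) := by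
        rw [hLL, hzs (n + 1)]
        nth_rewrite 3 [hzs n]
        abel
      rw [e]
      refine (hL _ _ (h1 (n + 1)).2 (h1 n).2 _).trans ?_
      calc 1 / 2 * nT hc μ (zs (n + 1) - zs n) ≤ 1 / 2 * (δ * (1 / 2) ^ n) := mul_le_mul_of_nonneg_left ih (by norm_num)
        _ = _ := by rw [pow_succ]; ring
  have hcau : CauchySeq zs := by
    refine cauchySeq_of_le_geometric (1 / 2) (Kc * δ) (by norm_num) fun n => ?_
    rw [dist_comm, dist_eq_norm]
    refine (hnorm _).trans ?_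
    rw [mul_assoc]
    exact mul_le_mul_of_nonneg_left (h2 n) hK0.le
  obtain ⟨z, hz⟩ := cauchySeq_tendsto_of_complete hcau
  have hcont : Continuous (Phi hc) := (Phi_contDiff hc).continuous
  refine ⟨z, ?_, ?_⟩
  · have t1 : Tendsto (fun n => Phi hc (zs n)) atTop (𝓝 (Phi hc z)) := (hcont.tendsto z).comp hz
    have t2 : Tendsto (fun n => zs n - (zs (n + 1) - U)) atTop (𝓝 (z - (z - U))) :=
      hz.sub (((tendsto_add_atTop_iff_nat 1).2 hz).sub_const U)
    have e : (fun n => Phi hc (zs n)) = fun n => zs n - (zs (n + 1) - U) := by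
      funext n
      rw [hzs]; unfold Phi; abel
    rw [e] at t1
    have h3 := tendsto_nhds_unique t1 t2
    rw [h3]; abel
  · have t3 : Tendsto (fun n => ‖zs n - z₀‖) atTop (𝓝 ‖z - z₀‖) := (hz.sub_const z₀).norm
    refine le_of_tendsto t3 (Eventually.of_forall fun n => ?_)
    refine (hnorm _).trans ?_
    calc Kc * nT hc μ (zs n - z₀) ≤ Kc * (2 * δ) := mul_le_mul_of_nonneg_left (h1 n).1 hK0.le
      _ = _ := by ring

end Pool.Agent.U162.LX
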