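import Pool.Agent.U162.LX.A1

/-!
The equation with a force: the mild form and the differential equation
-/

open MeasureTheory Set Filter Topology
open scoped ENNReal NNReal ContDiff

namespace Pool.Agent.U162.LX

open Pool.Agent.H356R3.NS Pool.Agent.U162.TS Pool.Agent.U162.TS.EL Pool.Agent.U162.PL

variable {c : ℝ} (hc : 0 < c)

lemma duf_short {m : ℝ} (hm : 0 < m) {f : ℝ → C3} {C R : ℝ} (hR : 0 ≤ R) (hf : ∀ s, ‖f s‖ ≤ C) (hs : ∀ s, R ≤ s → f s = 0)
    (hfc : Continuous f) {t : ℝ} (ht : 0 ≤ t) : ‖duf m f t‖ ≤ C * R := by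
  have hC : 0 ≤ C := (norm_nonneg _).trans (hf 0)
  have key : ∀ t' : ℝ, 0 ≤ t' → t' ≤ t → t' ≤ R → ‖∫ s in (0 : ℝ)..t', Real.exp (-(m * (t - s))) • f s‖ ≤ C * R := by
    intro t' h0 h1 h2
    have h := intervalIntegral.norm_integral_le_of_norm_le_const (a := 0) (b := t') (C := C)
      (f := fun s => Real.exp (-(m * (t - s))) • f s) fun s hs' => by
        rw [uIoc_of_le h0] at hs'
        rw [norm_smul, Real.norm_of_nonneg (Real.exp_pos _).le]
        have h3 : Real.exp (-(m * (t - s))) ≤ 1 := by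
          rw [Real.exp_le_one_iff]
          have : 0 ≤ m * (t - s) := mul_nonneg hm.le (by linarith [hs'.2])
          linarith
        exact (mul_le_of_le_one_left (norm_nonneg _) h3).trans (hf s)
    refine h.trans ?_
    rw [sub_zero, abs_of_nonneg h0]
    exact mul_le_mul_of_nonneg_left h2 hC
  have hcc : Continuous fun s => Real.exp (-(m * (t - s))) • f s := by fun_prop
  unfold duf
  rcases le_total t R with h | h
  · exact key t ht le_rfl h
  · rw [← intervalIntegral.integral_add_adjacent_intervals (b := R) (hcc.intervalIntegrable _ _) (hcc.intervalIntegrable _ _)]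
    have e : ∫ s in R..t, Real.exp (-(m * (t - s))) • f s = 0 := by
      rw [intervalIntegral.integral_congr (g := fun _ => (0 : C3)) fun s hs' => ?_]
      · simp
      · rw [uIcc_of_le h] at hs'
        simp only [hs s hs'.1, smul_zero]
    rw [e, add_zero]
    exact key R hR h le_rfl

/-- forces: bounded by a summable family and zero from the time `R` on -/
structure Fc (D : Fam) (b : K → ℝ) (R : ℝ) : Prop where
  cf : CF D
  sum : Summable b
  bd : ∀ k t, ‖D k t‖ ≤ b k
  late : ∀ k t, R ≤ t → D k t = 0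
  mean : ∀ t, D 0 t = 0

/-- the function whose Duhamel integral is taken -/
noncomputable def wD (c R : ℝ) (D : Fam) (k : K) (s : ℝ) : C3 := Real.exp (c / 2 * min (max s 0) R) • D k s

variable {D : Fam} {b : K → ℝ} {R : ℝ}

lemma wD_cont (h : Fc D b R) (k : K) : Continuous (wD c R D k) := by
  unfold wD
  have := h.cf k
  fun_prop

include hc in
lemma wD_bd (hR : 0 ≤ R) (h : Fc D b R) (k : K) (s : ℝ) : ‖wD c R D k s‖ ≤ Real.exp (c / 2 * R) * b k := by
  unfold wD
  rw [norm_smul, Real.norm_of_nonneg (Real.exp_pos _).le]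
  refine mul_le_mul (Real.exp_le_exp.2 (mul_le_mul_of_nonneg_left (min_le_right _ _) (by positivity))) (h.bd k s) (norm_nonneg _)
    (Real.exp_pos _).le

lemma wD_late (h : Fc D b R) (k : K) (s : ℝ) (hs : R ≤ s) : wD c R D k s = 0 := by
  unfold wD; rw [h.late k s hs, smul_zero]

/-- the Duhamel integral of the force -/
noncomputable def dB (hR : 0 ≤ R) (h : Fc D b R) (k : K) : TB :=
  BoundedContinuousFunction.ofNormedAddCommGroup (fun t : ℝ => duf (EL.mk c k) (wD c R D k) (max t 0))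
    ((duf_cont _ (wD_cont h k)).comp (by fun_prop)) (Real.exp (c / 2 * R) * b k * R)
    fun t => duf_short (mk_pos hc k) hR (wD_bd hc hR h k) (wD_late h k) (wD_cont h k) (le_max_right t 0)

lemma dB_apply (hR : 0 ≤ R) (h : Fc D b R) (k : K) (t : ℝ) : dB hc hR h k t = duf (EL.mk c k) (wD c R D k) (max t 0) := rfl

lemma dB_norm (hR : 0 ≤ R) (h : Fc D b R) (k : K) : ‖dB hc hR h k‖ ≤ Real.exp (c / 2 * R) * R * b k := by
  have hb : 0 ≤ b k := (norm_nonneg _).trans (h.bd k 0)
  refine (BoundedContinuousFunction.norm_le (by positivity)).2 fun t => ?_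
  rw [dB_apply]
  refine (duf_short (mk_pos hc k) hR (wD_bd hc hR h k) (wD_late h k) (wD_cont h k) (le_max_right t 0)).trans (le_of_eq ?_)
  ring

/-- the element of the Banach space -/
noncomputable def dE (hR : 0 ≤ R) (h : Fc D b R) : EE :=
  mkE (dB hc hR h) ((h.sum.mul_left (Real.exp (c / 2 * R) * R)).of_nonneg_of_le (fun _ => norm_nonneg _) fun k => dB_norm hc hR h k)

lemma dE_apply (hR : 0 ≤ R) (h : Fc D b R) (k : K) (t : ℝ) : dE hc hR h k t = duf (EL.mk c k) (wD c R D k) (max t 0) := rfl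

lemma dE_norm (hR : 0 ≤ R) (h : Fc D b R) : ‖dE hc hR h‖ ≤ Real.exp (c / 2 * R) * R * ∑' k, b k := by
  rw [nE, ← tsum_mul_left]
  exact (sE _).tsum_le_tsum (fun k => dB_norm hc hR h k) (h.sum.mul_left _)

lemma mk_sq {k : K} (hk : k ≠ 0) : EL.mk c k = c * H356R3.NS.sq k - c / 2 := by
  unfold EL.mk; rw [max_eq_right (one_le_sq hk)]

lemma dE_mild (hR : 0 ≤ R) (h : Fc D b R) {k : K} (hk : k ≠ 0) {t : ℝ} (ht : 0 ≤ t) :
    Real.exp (-(c / 2 * t)) • dE hc hR h k t = Real.exp (-(c * H356R3.NS.sq k * t)) •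
      ∫ r in (0 : ℝ)..t, Real.exp (c * H356R3.NS.sq k * r) • D k r := by
  rw [dE_apply, max_eq_left ht, duf_eq, smul_smul, ← Real.exp_add]
  have e1 : ∫ s in (0 : ℝ)..t, Real.exp (EL.mk c k * s) • wD c R D k s
      = ∫ r in (0 : ℝ)..t, Real.exp (c * H356R3.NS.sq k * r) • D k r := by
    refine intervalIntegral.integral_congr fun r hr => ?_
    rw [uIcc_of_le ht] at hr
    show Real.exp (EL.mk c k * r) • wD c R D k r = Real.exp (c * H356R3.NS.sq k * r) • D k r
    unfold wD
    rw [max_eq_left hr.1]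
    rcases le_total r R with h' | h'
    · rw [min_eq_left h', smul_smul, ← Real.exp_add, mk_sq hk]
      congr 2; ring
    · rw [h.late k r h', smul_zero, smul_zero, smul_zero]
  rw [e1, mk_sq hk]
  congr 2; ring

lemma BB_mild (z : EE) {k : K} (hk : k ≠ 0) {t : ℝ} (ht : 0 ≤ t) :
    Real.exp (-(c / 2 * t)) • BB hc z z k t = Real.exp (-(c * H356R3.NS.sq k * t)) •
      ∫ r in (0 : ℝ)..t, Real.exp (c * H356R3.NS.sq k * r) • Bt (XX c z) k r := by
  rw [BB_eval, tsum_tkf1 hc, max_eq_left ht, duf_eq, smul_smul, ← Real.exp_add]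
  have e1 : ∫ s in (0 : ℝ)..t, Real.exp (EL.mk c k * s) • ∑' l, prf c k (z l) (z (k - l)) s
      = ∫ r in (0 : ℝ)..t, Real.exp (c * H356R3.NS.sq k * r) • Bt (XX c z) k r := by
    refine intervalIntegral.integral_congr fun r hr => ?_
    rw [uIcc_of_le ht] at hr
    show Real.exp (EL.mk c k * r) • ∑' l, prf c k (z l) (z (k - l)) r = Real.exp (c * H356R3.NS.sq k * r) • Bt (XX c z) k r
    rw [XX_Bt hc z k hr.1, smul_smul, ← Real.exp_add]
    congr 2
    rw [mk_sq hk]; ring
  rw [e1, mk_sq hk]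
  congr 2; ring

/-- the reference element `exp(-c t) v` -/
noncomputable def z0 (v : K → C3) (hv : Summable fun k => ‖v k‖) : EE :=
  mkE (fun k => BoundedContinuousFunction.ofNormedAddCommGroup (fun t : ℝ => Real.exp (-(c / 2 * max t 0)) • v k) (by fun_prop) ‖v k‖
    fun t => by
      rw [norm_smul, Real.norm_of_nonneg (Real.exp_pos _).le]
      refine mul_le_of_le_one_left (norm_nonneg _) ?_
      rw [Real.exp_le_one_iff]
      have := mul_nonneg hc.le (le_max_right t 0)
      linarith) (hv.of_nonneg_of_le (fun _ => norm_nonneg _) fun k => by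
    refine (BoundedContinuousFunction.norm_le (norm_nonneg _)).2 fun t => ?_
    show ‖Real.exp (-(c / 2 * max t 0)) • v k‖ ≤ ‖v k‖
    rw [norm_smul, Real.norm_of_nonneg (Real.exp_pos _).le]
    refine mul_le_of_le_one_left (norm_nonneg _) ?_
    rw [Real.exp_le_one_iff]
    have := mul_nonneg hc.le (le_max_right t 0)
    linarith)

variable {v : K → C3} {hv : Summable fun k => ‖v k‖}

lemma z0_apply (k : K) (t : ℝ) : z0 hc v hv k t = Real.exp (-(c / 2 * max t 0)) • v k := rfl

lemma z0_le (k : K) (t : ℝ) : ‖z0 hc v hv k t‖ ≤ ‖v k‖ := by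
  rw [z0_apply, norm_smul, Real.norm_of_nonneg (Real.exp_pos _).le]
  refine mul_le_of_le_one_left (norm_nonneg _) ?_
  rw [Real.exp_le_one_iff]
  have := mul_nonneg hc.le (le_max_right t 0)
  linarith

lemma z0_norm : ‖z0 hc v hv‖ ≤ ∑' k, ‖v k‖ := by
  rw [nE]
  exact (sE _).tsum_le_tsum (fun k => (BoundedContinuousFunction.norm_le (norm_nonneg _)).2 fun t => z0_le hc k t) hv

/-- the reference flow -/
lemma X0_apply (k : K) (t : ℝ) : XX c (z0 hc v hv) k t = Real.exp (-(c * max t 0)) • v k := by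
  unfold XX
  rw [z0_apply, smul_smul, ← Real.exp_add, max_eq_left (le_max_right t 0)]
  congr 2; ring

variable {z : EE} {hR : 0 ≤ R} {hD : Fc D b R}

/-- the solution -/
def Sl (c : ℝ) (hc : 0 < c) (v : K → C3) (hv : Summable fun k => ‖v k‖) {D : Fam} {b : K → ℝ} {R : ℝ} (hR : 0 ≤ R) (hD : Fc D b R) (z : EE) : Prop :=
  Phi hc z = Phi hc (z0 hc v hv) + dE hc hR hD

lemma Sl_eval (h : Sl c hc v hv hR hD z) (k : K) (t : ℝ) :
    z k t = z0 hc v hv k t - BB hc (z0 hc v hv) (z0 hc v hv) k t + BB hc z z k t + dE hc hR hD k t := by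
  have h1 := congrArg (fun x : EE => x k t) h
  unfold Phi at h1
  simp only [lp.coeFn_sub, lp.coeFn_add, Pi.sub_apply, Pi.add_apply, BoundedContinuousFunction.sub_apply,
    BoundedContinuousFunction.add_apply] at h1
  rw [sub_eq_iff_eq_add] at h1
  rw [h1]; abel

lemma Sl_zero (h : Sl c hc v hv hR hD z) (h0 : v 0 = 0) (t : ℝ) : z 0 t = 0 := by
  rw [Sl_eval hc h, BB_k0, BB_k0, z0_apply, h0, smul_zero, dE_apply]
  have e : wD c R D 0 = fun _ => 0 := by
    funext s
    unfold wD; rw [hD.mean, smul_zero]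
  rw [e, duf_zero]; simp

lemma XX_zero' (h : Sl c hc v hv hR hD z) (h0 : v 0 = 0) (t : ℝ) : XX c z 0 t = 0 := by
  unfold XX; rw [Sl_zero hc h h0, smul_zero]

/-- the whole right-hand side without the linear term -/
noncomputable def Fr (c : ℝ) (hc : 0 < c) (v : K → C3) (hv : Summable fun k => ‖v k‖) (z : EE) (D : Fam) : Fam := fun k t =>
  Bt (XX c z) k t - Bt (XX c (z0 hc v hv)) k t + D k t

lemma Fr_cont (hD : Fc D b R) (z : EE) (k : K) : Continuous (Fr c hc v hv z D k) :=
  ((Bt_cont (XX_cf z) (XX_dom hc z) k).sub (Bt_cont (XX_cf _) (XX_dom hc _) k)).add (hD.cf k)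

lemma Sl_mild (h : Sl c hc v hv hR hD z) {k : K} (hk : k ≠ 0) {t : ℝ} (ht : 0 ≤ t) :
    XX c z k t = XX c (z0 hc v hv) k t + Real.exp (-(c * H356R3.NS.sq k * t)) •
      ((0 : C3) + ∫ r in (0 : ℝ)..t, Real.exp (c * H356R3.NS.sq k * r) • Fr c hc v hv z D k r) := by
  have c1 : Continuous (Bt (XX c z) k) := Bt_cont (XX_cf z) (XX_dom hc z) k
  have c2 : Continuous (Bt (XX c (z0 hc v hv)) k) := Bt_cont (XX_cf _) (XX_dom hc _) k
  have c3 := hD.cf k
  have e : ∫ r in (0 : ℝ)..t, Real.exp (c * H356R3.NS.sq k * r) • Fr c hc v hv z D k r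
      = (∫ r in (0 : ℝ)..t, Real.exp (c * H356R3.NS.sq k * r) • Bt (XX c z) k r)
        - (∫ r in (0 : ℝ)..t, Real.exp (c * H356R3.NS.sq k * r) • Bt (XX c (z0 hc v hv)) k r)
        + ∫ r in (0 : ℝ)..t, Real.exp (c * H356R3.NS.sq k * r) • D k r := by
    rw [← intervalIntegral.integral_sub, ← intervalIntegral.integral_add]
    · refine intervalIntegral.integral_congr fun r _ => ?_
      simp only [Fr, smul_add, smul_sub]
    all_goals exact (by fun_prop : Continuous _).intervalIntegrable _ _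
  rw [zero_add, e, smul_add, smul_sub, ← BB_mild hc z hk ht, ← BB_mild hc _ hk ht, ← dE_mild hc hR hD hk ht]
  unfold XX
  rw [max_eq_left ht, Sl_eval hc h, smul_add, smul_add, smul_sub]
  abel

lemma X0_deriv (k : K) {t : ℝ} (ht : 0 < t) : HasDerivAt (XX c (z0 hc v hv) k) (-c • XX c (z0 hc v hv) k t) t := by
  have h1 : HasDerivAt (fun s : ℝ => Real.exp (-(c * s)) • v k) ((Real.exp (-(c * t)) * -c) • v k) t := by
    have h2 : HasDerivAt (fun s : ℝ => -(c * s)) (-c) t := by
      simpa using ((hasDerivAt_id' t).const_mul c).fun_neg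
    exact h2.exp.smul_const _
  have e : XX c (z0 hc v hv) k =ᶠ[𝓝 t] fun s : ℝ => Real.exp (-(c * s)) • v k := by
    filter_upwards [lt_mem_nhds ht] with s hs
    rw [X0_apply, max_eq_left (le_of_lt hs)]
  refine (h1.congr_of_eventuallyEq e).congr_deriv ?_
  rw [X0_apply, max_eq_left ht.le, smul_smul]
  congr 1; ring

/-- the force of the reference flow -/
noncomputable def FW (c : ℝ) (hc : 0 < c) (v : K → C3) (hv : Summable fun k => ‖v k‖) : Fam := fun k t =>
  (c * H356R3.NS.sq k - c) • XX c (z0 hc v hv) k t - Bt (XX c (z0 hc v hv)) k t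

theorem Sl_ode (h : Sl c hc v hv hR hD z) (h0 : v 0 = 0) (k : K) (t : ℝ) (ht : 0 < t) :
    HasDerivAt (XX c z k) (-(c * H356R3.NS.sq k) • XX c z k t + Bt (XX c z) k t + (FW c hc v hv k t + D k t)) t := by
  by_cases hk : k = 0
  · subst hk
    have e : XX c z 0 = fun _ => 0 := funext fun t => XX_zero' hc h h0 t
    have e2 : FW c hc v hv 0 t = 0 := by
      unfold FW
      rw [Bt_0, X0_apply, h0]; simp
    rw [e, Bt_0, smul_zero, e2, hD.mean]
    simp only [add_zero]
    exact hasDerivAt_const _ _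
  have h1 := duh_deriv (q := c * H356R3.NS.sq k) (0 : C3) (Fr_cont hc (hv := hv) hD z k) t
  have h2 := (X0_deriv (hv := hv) hc k ht).add h1
  have e : XX c z k =ᶠ[𝓝 t] (XX c (z0 hc v hv) k + fun s => Real.exp (-(c * H356R3.NS.sq k * s)) •
      ((0 : C3) + ∫ r in (0 : ℝ)..s, Real.exp (c * H356R3.NS.sq k * r) • Fr c hc v hv z D k r)) := by
    filter_upwards [lt_mem_nhds ht] with s hs
    exact Sl_mild hc h hk (le_of_lt hs)
  refine (h2.congr_of_eventuallyEq e).congr_deriv ?_
  have e3 : Real.exp (-(c * H356R3.NS.sq k * t)) •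
      ((0 : C3) + ∫ r in (0 : ℝ)..t, Real.exp (c * H356R3.NS.sq k * r) • Fr c hc v hv z D k r) = XX c z k t - XX c (z0 hc v hv) k t := by
    rw [Sl_mild hc h hk ht.le]; abel
  rw [e3]
  unfold Fr FW
  simp only [smul_sub, sub_smul, neg_smul]
  abel

lemma Sl_init (h : Sl c hc v hv hR hD z) (h0 : v 0 = 0) (k : K) : XX c z k 0 = v k := by
  by_cases hk : k = 0
  · subst hk; rw [XX_zero' hc h h0, h0]
  · rw [Sl_mild hc h hk le_rfl, X0_apply]; simp

lemma Sl_div (h : Sl c hc v hv hR hD z) (h0 : v 0 = 0) (hd : ∀ k, dt k (v k) = 0) (hDd : ∀ k t, dt k (D k t) = 0) (k : K) (t : ℝ) :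
    dt k (XX c z k t) = 0 := by
  by_cases hk : k = 0
  · subst hk; rw [XX_zero' hc h h0]; simp [dt]
  have hB : Continuous (Fr c hc v hv z D k) := Fr_cont hc hD z k
  let L : C3 →L[ℝ] ℂ := ∑ j, ((k j : ℝ) • (ContinuousLinearMap.proj (R := ℝ) (φ := fun _ : Fin 3 => ℂ) j))
  have hL : ∀ v, L v = dt k v := by
    intro v
    simp [L, dt]
  rw [XX_max, Sl_mild hc h hk (le_max_right _ _), ← hL, map_add, map_smul, map_add,
    ← ContinuousLinearMap.intervalIntegral_comp_comm]
  · have : ∀ s, L (Real.exp (c * H356R3.NS.sq k * s) • Fr c hc v hv z D k s) = 0 := by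
      intro s
      rw [map_smul]
      unfold Fr
      rw [map_add, map_sub, hL, hL, hL]
      have e1 : dt k (Bt (XX c z) k s) = 0 := Bf_div _ _ k
      have e2 : dt k (Bt (XX c (z0 hc v hv)) k s) = 0 := Bf_div _ _ k
      rw [e1, e2, hDd, sub_zero, add_zero, smul_zero]
    have e3 : L (XX c (z0 hc v hv) k (max t 0)) = 0 := by
      rw [X0_apply, map_smul, hL, hd, smul_zero]
    simp only [this, intervalIntegral.integral_zero, e3, map_zero, add_zero, smul_zero]
  · exact (by fun_prop : Continuous fun s => Real.exp (c * H356R3.NS.sq k * s) • Fr c hc v hv z D k s).intervalIntegrable _ _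

end Pool.Agent.U162.LX
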