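import Pool.Agent.U162.LX.A2

/-!
The equation with a force: reality and decay
-/

open MeasureTheory Set Filter Topology
open scoped ENNReal NNReal ContDiff

namespace Pool.Agent.U162.LX

open Pool.Agent.H356R3.NS Pool.Agent.U162.TS Pool.Agent.U162.TS.EL Pool.Agent.U162.PL

variable {c : ℝ} (hc : 0 < c) {D : Fam} {b : K → ℝ} {R : ℝ} {v : K → C3} {hv : Summable fun k => ‖v k‖}
  {z : EE} {hR : 0 ≤ R} {hD : Fc D b R}

lemma cjE_add (x y : EE) : cjE (x + y) = cjE x + cjE y := by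
  apply lp.ext
  funext k
  ext1 t
  rw [cjE_apply, lp.coeFn_add, Pi.add_apply, BoundedContinuousFunction.add_apply, lp.coeFn_add, Pi.add_apply,
    BoundedContinuousFunction.add_apply, map_add, cjE_apply, cjE_apply]

lemma cjE_z0 (hr : ∀ k i, v (-k) i = star (v k i)) : cjE (z0 hc v hv) = z0 hc v hv := by
  apply lp.ext
  funext k
  ext1 t
  rw [cjE_apply, z0_apply, z0_apply, map_smul]
  congr 1
  funext i
  rw [cj_apply, hr, star_star]

lemma cjE_dE (hDr : ∀ k t i, D (-k) t i = star (D k t i)) : cjE (dE hc hR hD) = dE hc hR hD := by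
  apply lp.ext
  funext k
  ext1 t
  rw [cjE_apply, dE_apply, dE_apply]
  have hm : EL.mk c (-k) = EL.mk c k := by unfold EL.mk; rw [H356R3.NS.sq_neg]
  unfold duf
  rw [hm, ← ContinuousLinearMap.intervalIntegral_comp_comm]
  · refine intervalIntegral.integral_congr fun s _ => ?_
    show cj (_ • wD c R D (-k) s) = _ • wD c R D k s
    rw [map_smul]
    congr 1
    unfold wD
    rw [map_smul]
    congr 1
    funext i
    rw [cj_apply, hDr, star_star]
  · have h1 : Continuous (wD c R D (-k)) := wD_cont hD (-k)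
    exact (by fun_prop : Continuous fun s => Real.exp (-(EL.mk c k * (max t 0 - s))) • wD c R D (-k) s).intervalIntegrable _ _

lemma Sl_real (h : Sl c hc v hv hR hD z) (hr : ∀ k i, v (-k) i = star (v k i))
    (hDr : ∀ k t i, D (-k) t i = star (D k t i)) (k : K) (t : ℝ) (i : Fin 3) : z (-k) t i = star (z k t i) := by
  have h' : cjE z = z := by
    apply Phi_inj hc
    have h1 : Phi hc z = Phi hc (z0 hc v hv) + dE hc hR hD := h
    rw [Phi_cj, h1, cjE_add, ← Phi_cj, cjE_z0 hc hr, cjE_dE hc hDr]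
  have h1 : z k t i = star (z (-k) t i) := by
    conv_lhs => rw [← h']
    rw [cjE_apply, cj_apply]
  rw [h1, star_star]

lemma Sl_sym (h : Sl c hc v hv hR hD z) (hr : ∀ k i, v (-k) i = star (v k i))
    (hDr : ∀ k t i, D (-k) t i = star (D k t i)) : SymF (XX c z) := by
  intro t k i
  show XX c z (-k) t i = star (XX c z k t i)
  unfold XX
  rw [Pi.smul_apply, Pi.smul_apply, Sl_real hc h hr hDr, star_smul, star_trivial (Real.exp _)]

/-- decay of the quadratic term -/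
lemma BB_dec {z : EE} {G A : ℝ} (hG : ∀ t, ∑' k, ‖z k t‖ ≤ G) {j : ℕ} (hA : ∀ k t, nk k ^ j * ‖z k t‖ ≤ A) (k : K) (t : ℝ) :
    nk k ^ (j + 1) * ‖BB hc z z k t‖ ≤ 2 * C0 / c * (2 ^ (j + 1) * (A * G)) := by
  have hC := C0_pos
  have hG0 : 0 ≤ G := (tsum_nonneg fun _ => norm_nonneg _).trans (hG 0)
  have hA0 : 0 ≤ A := (mul_nonneg (pow_nonneg (nk_nonneg 0) j) (norm_nonneg _)).trans (hA 0 0)
  by_cases hk : k = 0
  · subst hk
    rw [nk_zero, zero_pow (Nat.succ_ne_zero j), zero_mul]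
    positivity
  have hkp := nk_pos hk
  have h2 : nk k ^ j * ‖BB hc z z k t‖ ≤ C0 * nk k * (2 ^ (j + 1) * (A * G)) / EL.mk c k := by
    rw [BB_eval, tsum_tkf1 hc, ← le_div_iff₀' (by positivity)]
    have h3 := duf_norm (mk_pos hc k) (f := fun s => ∑' l, prf c k (z l) (z (k - l)) s)
      (C := C0 * nk k * (2 ^ (j + 1) * (A * G)) / nk k ^ j) (le_max_right t 0) fun s _ _ => by
        have hs : Summable fun l => ‖z l s‖ * ‖z (k - l) s‖ :=
          cvS1 (z_summ z s) (z_summ z s) (fun _ => norm_nonneg _) (fun _ => norm_nonneg _) k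
        have h4 : ‖∑' l, prf c k (z l) (z (k - l)) s‖ ≤ C0 * nk k * ∑' l, ‖z l s‖ * ‖z (k - l) s‖ := by
          have hs2 : Summable fun l => ‖prf c k (z l) (z (k - l)) s‖ :=
            (hs.mul_left (C0 * nk k)).of_nonneg_of_le (fun _ => norm_nonneg _) fun l => prf_norm hc k _ _ s
          refine (norm_tsum_le_tsum_norm hs2).trans ?_
          rw [← tsum_mul_left]
          exact hs2.tsum_le_tsum (fun l => prf_norm hc k _ _ s) (hs.mul_left _)
        have h5 := conv_bd (fun _ => norm_nonneg _) (z_summ z s) (hG s) (fun k => hA k s) k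
        rw [le_div_iff₀' (by positivity)]
        calc nk k ^ j * ‖∑' l, prf c k (z l) (z (k - l)) s‖
            ≤ nk k ^ j * (C0 * nk k * ∑' l, ‖z l s‖ * ‖z (k - l) s‖) :=
              mul_le_mul_of_nonneg_left h4 (by positivity)
          _ = C0 * nk k * (nk k ^ j * ∑' l, ‖z l s‖ * ‖z (k - l) s‖) := by ring
          _ ≤ _ := mul_le_mul_of_nonneg_left h5 (by positivity)
    refine h3.trans (le_of_eq ?_)
    rw [div_right_comm]
  calc nk k ^ (j + 1) * ‖BB hc z z k t‖ = nk k * (nk k ^ j * ‖BB hc z z k t‖) := by ring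
    _ ≤ nk k * (C0 * nk k * (2 ^ (j + 1) * (A * G)) / EL.mk c k) := mul_le_mul_of_nonneg_left h2 hkp.le
    _ ≤ _ := by
      have h7 := nk2_mk hc k
      calc _ = (nk k ^ 2 / EL.mk c k) * (C0 * (2 ^ (j + 1) * (A * G))) := by ring
        _ ≤ (2 / c) * (C0 * (2 ^ (j + 1) * (A * G))) := mul_le_mul_of_nonneg_right h7 (by positivity)
        _ = _ := by ring

/-- the constants of the decay estimate -/
noncomputable def Ae (c G E : ℝ) (Dv Db : ℕ → ℝ) : ℕ → ℝ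
  | 0 => G
  | j + 1 => Dv (j + 1) + 2 * C0 / c * (2 ^ (j + 1) * (Dv j * G)) + 2 * C0 / c * (2 ^ (j + 1) * (Ae c G E Dv Db j * G)) + E * Db (j + 1)

lemma z0_G {G : ℝ} (hG : ∑' k, ‖v k‖ ≤ G) (t : ℝ) : ∑' k, ‖z0 hc v hv k t‖ ≤ G :=
  ((z_summ (z0 hc v hv) t).tsum_le_tsum (fun k => z0_le hc k t) hv).trans hG

theorem Sl_dec (h : Sl c hc v hv hR hD z) {G E : ℝ} (hE : Real.exp (c / 2 * R) * R ≤ E) (hGv : ∑' k, ‖v k‖ ≤ G) (hG : ∀ t, ∑' k, ‖z k t‖ ≤ G) {Dv Db : ℕ → ℝ}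
    (hDv : ∀ j k, nk k ^ j * ‖v k‖ ≤ Dv j) (hDb : ∀ j k, nk k ^ j * b k ≤ Db j) :
    ∀ j k t, nk k ^ j * ‖z k t‖ ≤ Ae c G E Dv Db j := by
  have hC := C0_pos
  intro j
  induction j with
  | zero =>
    intro k t
    rw [pow_zero, one_mul]
    exact ((z_summ z t).le_tsum k fun _ _ => norm_nonneg _).trans (hG t)
  | succ j ih =>
    intro k t
    have hn : 0 ≤ nk k ^ (j + 1) := pow_nonneg (nk_nonneg k) _
    have a1 : nk k ^ (j + 1) * ‖z0 hc v hv k t‖ ≤ Dv (j + 1) :=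
      (mul_le_mul_of_nonneg_left (z0_le hc k t) hn).trans (hDv _ _)
    have a2 := BB_dec hc (z := z0 hc v hv) (z0_G hc hGv) (j := j) (A := Dv j)
      (fun k t => (mul_le_mul_of_nonneg_left (z0_le hc k t) (pow_nonneg (nk_nonneg k) _)).trans (hDv _ _)) k t
    have a3 := BB_dec hc hG (ih) k t
    have a4 : nk k ^ (j + 1) * ‖dE hc hR hD k t‖ ≤ E * Db (j + 1) := by
      have hb : 0 ≤ b k := (norm_nonneg _).trans (hD.bd k 0)
      have hE0 : 0 ≤ E := le_trans (by positivity) hE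
      have h1 : ‖dE hc hR hD k t‖ ≤ E * b k :=
        ((dE hc hR hD k).norm_coe_le_norm t).trans ((dB_norm hc hR hD k).trans (mul_le_mul_of_nonneg_right hE hb))
      calc nk k ^ (j + 1) * ‖dE hc hR hD k t‖ ≤ nk k ^ (j + 1) * (E * b k) := mul_le_mul_of_nonneg_left h1 hn
        _ = E * (nk k ^ (j + 1) * b k) := by ring
        _ ≤ _ := mul_le_mul_of_nonneg_left (hDb _ _) hE0
    have h5 : ‖z k t‖ ≤ ‖z0 hc v hv k t‖ + ‖BB hc (z0 hc v hv) (z0 hc v hv) k t‖ + ‖BB hc z z k t‖ + ‖dE hc hR hD k t‖ := by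
      rw [Sl_eval hc h]
      exact (norm_add_le _ _).trans (add_le_add ((norm_add_le _ _).trans (add_le_add (norm_sub_le _ _) le_rfl)) le_rfl)
    calc nk k ^ (j + 1) * ‖z k t‖ ≤ nk k ^ (j + 1) * (‖z0 hc v hv k t‖ + ‖BB hc (z0 hc v hv) (z0 hc v hv) k t‖ + ‖BB hc z z k t‖
          + ‖dE hc hR hD k t‖) := mul_le_mul_of_nonneg_left h5 hn
      _ = nk k ^ (j + 1) * ‖z0 hc v hv k t‖ + nk k ^ (j + 1) * ‖BB hc (z0 hc v hv) (z0 hc v hv) k t‖
          + nk k ^ (j + 1) * ‖BB hc z z k t‖ + nk k ^ (j + 1) * ‖dE hc hR hD k t‖ := by ring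
      _ ≤ _ := add_le_add (add_le_add (add_le_add a1 a2) a3) a4

/-- from decay to summable bounds -/
lemma sum_of_dec {x : K → ℝ → C3} {A : ℝ} {j : ℕ} (h0 : ∀ t, x 0 t = 0) (hA0 : 0 ≤ A) (hA : ∀ k t, nk k ^ (j + 4) * ‖x k t‖ ≤ A) :
    ∃ b : K → ℝ, Summable b ∧ ∀ k t, pw k ^ j * ‖x k t‖ ≤ b k := by
  refine ⟨fun k => 4 ^ j * A * (if k = 0 then (0 : ℝ) else 1 / nk k ^ 4), summable_nk4.mul_left _, fun k t => ?_⟩
  show pw k ^ j * ‖x k t‖ ≤ 4 ^ j * A * (if k = 0 then (0 : ℝ) else 1 / nk k ^ 4)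
  by_cases hk : k = 0
  · subst hk
    rw [h0, norm_zero]; simp
  · rw [if_neg hk, mul_one_div]
    have hkp := nk_pos hk
    rw [le_div_iff₀ (by positivity)]
    have h1 := hA k t
    have h2 : pw k ^ j ≤ 4 ^ j * nk k ^ j := by
      rw [← mul_pow]; exact pow_le_pow_left₀ (pw_pos k).le (pw_le hk) j
    calc pw k ^ j * ‖x k t‖ * nk k ^ 4 ≤ 4 ^ j * nk k ^ j * ‖x k t‖ * nk k ^ 4 := by gcongr
      _ = 4 ^ j * (nk k ^ (j + 4) * ‖x k t‖) := by ring
      _ ≤ 4 ^ j * A := mul_le_mul_of_nonneg_left h1 (by positivity)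

theorem Sl_rd (h : Sl c hc v hv hR hD z) (h0 : v 0 = 0) {Dv Db : ℕ → ℝ}
    (hDv : ∀ j k, nk k ^ j * ‖v k‖ ≤ Dv j) (hDb : ∀ j k, nk k ^ j * b k ≤ Db j) (i : Fin 3) : RD (cf' (XX c z) i) := by
  intro m
  have hd := Sl_dec hc h (E := Real.exp (c / 2 * R) * R) le_rfl (G := max (∑' k, ‖v k‖) ‖z‖) (le_max_left _ _) (fun t => (z_G z t).trans (le_max_right _ _)) hDv hDb (m + 4)
  obtain ⟨β, hβ, hβ'⟩ := sum_of_dec (x := fun k t => z k t) (Sl_zero hc h h0)
    ((mul_nonneg (pow_nonneg (nk_nonneg 0) _) (norm_nonneg _)).trans (hd 0 0)) hd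
  refine ⟨β, hβ, fun k t => ?_⟩
  have h1 : ‖cf' (XX c z) i k t‖ ≤ ‖z k (max t 0)‖ := (norm_le_pi_norm _ i).trans (XX_le hc z k t)
  exact (mul_le_mul_of_nonneg_left h1 (pow_nonneg (pw_pos k).le m)).trans (hβ' k _)

end Pool.Agent.U162.LX
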