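import Pool.Agent.U162.LX.A3
import Pool.Agent.U162.SF.Ffin
import Pool.Agent.U162.TS.Flow1

/-!
Fourier coefficients of smooth functions of time and space as functions of time
-/

open MeasureTheory Set Filter Topology
open scoped ENNReal NNReal ContDiff

namespace Pool.Agent.U162.SF

open Pool.Agent.H356R3.NS Pool.Agent.U162.TS Pool.Agent.U162.GE Pool.Agent.U162.TS.EL Pool.Agent.U162.TS.VF Pool.Agent.U162.TS.Ph Pool.Agent.U162.PL Pool.Agent.U162.MU Pool.Agent.U162.LX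

variable {T : ℝ}

/-- the time derivative -/
noncomputable def dtw (T : ℝ) (f : ℝ → R3 → ℝ) (t : ℝ) (x : R3) : ℝ := derivWithin (fun s => f s x) (Ico 0 T) t

lemma uS : UniqueDiffOn ℝ (Ico 0 T ×ˢ (univ : Set R3)) := (uniqueDiffOn_Ico 0 T).prod uniqueDiffOn_univ

lemma dtw_eq {f : ℝ → R3 → ℝ} (hf : ContDiffOn ℝ ∞ (fun z : ℝ × R3 => f z.1 z.2) (Ico 0 T ×ˢ univ)) {t : ℝ} (ht : t ∈ Ico 0 T) (x : R3) :
    dtw T f t x = fderivWithin ℝ (fun z : ℝ × R3 => f z.1 z.2) (Ico 0 T ×ˢ univ) (t, x) (1, 0) := by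
  have h1 : HasFDerivWithinAt (fun z : ℝ × R3 => f z.1 z.2)
      (fderivWithin ℝ (fun z : ℝ × R3 => f z.1 z.2) (Ico 0 T ×ˢ univ) (t, x)) (Ico 0 T ×ˢ univ) (t, x) :=
    (hf.differentiableOn (by simp) (t, x) ⟨ht, trivial⟩).hasFDerivWithinAt
  have h2 : HasDerivWithinAt (fun s : ℝ => ((s, x) : ℝ × R3)) (1, 0) (Ico 0 T) t :=
    ((hasDerivAt_id t).prodMk (hasDerivAt_const t x)).hasDerivWithinAt
  have h3 := h1.comp_hasDerivWithinAt t h2 (show MapsTo (fun s : ℝ => ((s, x) : ℝ × R3)) (Ico 0 T) (Ico 0 T ×ˢ univ) from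
    fun s hs => ⟨hs, trivial⟩)
  exact h3.derivWithin (uniqueDiffOn_Ico 0 T t ht)

lemma Sm.dtw {h : ℝ → R3 → ℝ} (hh : Sm T h) : Sm T (dtw T h) where
  smooth := by
    have h1 : ContDiffOn ℝ ∞ (fun z : ℝ × R3 => fderivWithin ℝ (fun z : ℝ × R3 => h z.1 z.2) (Ico 0 T ×ˢ univ) z ((1 : ℝ), (0 : R3)))
        (Ico 0 T ×ˢ univ) := (hh.smooth.fderivWithin uS (by simp)).clm_apply contDiffOn_const
    exact h1.congr fun z hz => dtw_eq hh.smooth hz.1 z.2
  sp := fun t ht => by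
    have h1 : ContDiffOn ℝ ∞ (fun z : ℝ × R3 => fderivWithin ℝ (fun z : ℝ × R3 => h z.1 z.2) (Ico 0 T ×ˢ univ) z ((1 : ℝ), (0 : R3)))
        (Ico 0 T ×ˢ univ) := (hh.smooth.fderivWithin uS (by simp)).clm_apply contDiffOn_const
    have h2 := h1.congr fun z hz => dtw_eq hh.smooth hz.1 z.2
    refine ⟨?_, fun j x => ?_⟩
    · rw [← contDiffOn_univ]
      exact h2.comp (f := fun x : R3 => ((t, x) : ℝ × R3)) (contDiff_const.prodMk contDiff_id).contDiffOn fun x _ => ⟨ht, trivial⟩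
    · unfold SF.dtw
      exact derivWithin_congr (fun s hs => (hh.sp s hs).per j x) ((hh.sp t ht).per j x)

lemma dtw_dt {h : ℝ → R3 → ℝ} {t : ℝ} (ht : t ∈ Ioo 0 T) : dtw T h t = H459R3.NS.dt h t := by
  funext x
  unfold dtw H459R3.NS.dt
  exact derivWithin_of_mem_nhds (Ico_mem_nhds ht.1 ht.2)

lemma fr_hd {h : ℝ → R3 → ℝ} (hh : Sm T h) {t : ℝ} (ht : t ∈ Ioo 0 T) (k : K) :
    HasDerivAt (fun s => H459R3.NS.fr (h s) k) (H459R3.NS.fr (dtw T h t) k) t := by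
  rw [dtw_dt ht]
  exact Pool.Agent.Q63.Win.hasDerivAt_frc hh.smooth ht k

lemma fr_unif {h : ℝ → R3 → ℝ} (hh : Sm T h) {b : ℝ} (hb : b < T) (p : ℕ) :
    ∃ M : ℝ, 0 ≤ M ∧ ∀ t ∈ Icc 0 b, ∀ k, (1 + nk k) ^ p * ‖H459R3.NS.fr (h t) k‖ ≤ M := by
  obtain ⟨M, hM0, hM⟩ := Wm_bd (g := fun t x _ => h t x) (fun _ => hh) hb p
  refine ⟨M, hM0, fun t ht k => ?_⟩
  have h1 := hM t ht
  have h2 : ENNReal.ofReal ((1 + nk k) ^ p) * ‖H356R3.NS.fc (fun (x : R3) (_ : Fin 3) => h t x) k‖ₑ ≤ ENNReal.ofReal M :=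
    (ENNReal.le_tsum k).trans h1
  have h3 := fr_le_fc (fun (x : R3) (_ : Fin 3) => h t x) 0 k
  have h4 := nk_nonneg k
  rw [← ofReal_norm, ← ENNReal.ofReal_mul (by positivity), ENNReal.ofReal_le_ofReal_iff hM0] at h2
  exact (mul_le_mul_of_nonneg_left h3 (by positivity)).trans h2

/-- a summable weight -/
noncomputable def sb (k : K) : ℝ := (if k = 0 then (1 : ℝ) else 0) + (if k = 0 then (0 : ℝ) else 1 / nk k ^ 4)

lemma sb_sum : Summable sb := (hasSum_ite_eq (0 : K) (1 : ℝ)).summable.add summable_nk4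

lemma sb_ge (k : K) : 1 / (1 + nk k) ^ 4 ≤ sb k := by
  unfold sb
  have h4 := nk_nonneg k
  by_cases hk : k = 0
  · subst hk; rw [nk_zero]; simp
  · rw [if_neg hk, if_neg hk, zero_add]
    have := nk_pos hk
    exact one_div_le_one_div_of_le (by positivity) (pow_le_pow_left₀ h4 (by linarith) 4)

lemma pw_le3 (k : K) : pw k ≤ 3 * (1 + nk k) := by
  have h1 := l1_le k
  unfold pw; linarith

lemma rd_of_unif {c : SFam} (h : ∀ p : ℕ, ∃ M : ℝ, 0 ≤ M ∧ ∀ k t, (1 + nk k) ^ p * ‖c k t‖ ≤ M) : RD c := by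
  intro m
  obtain ⟨M, hM0, hM⟩ := h (m + 4)
  refine ⟨fun k => 3 ^ m * M * sb k, sb_sum.mul_left _, fun k t => ?_⟩
  have h4 := nk_nonneg k
  have h5 : pw k ^ m ≤ 3 ^ m * (1 + nk k) ^ m := by
    rw [← mul_pow]; exact pow_le_pow_left₀ (pw_pos k).le (pw_le3 k) m
  calc pw k ^ m * ‖c k t‖ ≤ 3 ^ m * (1 + nk k) ^ m * ‖c k t‖ := mul_le_mul_of_nonneg_right h5 (norm_nonneg _)
    _ = 3 ^ m * ((1 + nk k) ^ (m + 4) * ‖c k t‖) * (1 / (1 + nk k) ^ 4) := by
        rw [pow_add]; field_simp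
    _ ≤ 3 ^ m * M * sb k := mul_le_mul (mul_le_mul_of_nonneg_left (hM k t) (by positivity)) (sb_ge k) (by positivity) (by positivity)

lemma th_bd {θ : ℝ → ℝ} {R : ℝ} (hθ : Continuous θ) (hs : tsupport θ ⊆ Icc (-R) R) : ∃ C : ℝ, 0 ≤ C ∧ ∀ t, |θ t| ≤ C := by
  obtain ⟨C, hC⟩ := (isCompact_Icc (a := -R) (b := R)).exists_bound_of_continuousOn hθ.continuousOn
  refine ⟨max C 0, le_max_right _ _, fun t => ?_⟩
  by_cases ht : t ∈ Icc (-R) R
  · exact (hC t ht).trans (le_max_left _ _)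
  · rw [image_eq_zero_of_notMem_tsupport (fun h => ht (hs h)), abs_zero]
    exact le_max_right _ _

lemma ts_deriv {θ : ℝ → ℝ} {S : Set ℝ} (hs : tsupport θ ⊆ S) : tsupport (deriv θ) ⊆ S :=
  (closure_minimal support_deriv_subset (isClosed_tsupport θ)).trans hs

lemma ts_zero {θ : ℝ → ℝ} {R t : ℝ} (hs : tsupport θ ⊆ Icc (-R) R) (ht : R < t) : θ =ᶠ[𝓝 t] fun _ => 0 := by
  filter_upwards [Ioi_mem_nhds ht] with s hs'
  exact image_eq_zero_of_notMem_tsupport fun h => absurd (hs h).2 (not_le.2 hs')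

theorem TT_fr {τ R : ℝ} (hτ : 0 ≤ τ) (hR : 0 ≤ R) (hT : τ + R < T) : ∀ (n : ℕ) (θ : ℝ → ℝ) (h : ℝ → R3 → ℝ), ContDiff ℝ ∞ θ →
    tsupport θ ⊆ Icc (-R) R → Sm T h → TT n (fun k t => (θ t : ℂ) * H459R3.NS.fr (h (τ + max t 0)) k) := by
  have base : ∀ (θ : ℝ → ℝ) (h : ℝ → R3 → ℝ), ContDiff ℝ ∞ θ → tsupport θ ⊆ Icc (-R) R → Sm T h →
      TT 0 (fun k t => (θ t : ℂ) * H459R3.NS.fr (h (τ + max t 0)) k) := by
    intro θ h hθ hs hh
    refine ⟨rd_of_unif fun p => ?_, fun k => ?_⟩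
    · obtain ⟨C, hC0, hC⟩ := th_bd hθ.continuous hs
      obtain ⟨M, hM0, hM⟩ := fr_unif hh hT p
      refine ⟨C * M, by positivity, fun k t => ?_⟩
      rw [norm_mul, Complex.norm_real, Real.norm_eq_abs]
      have h4 := nk_nonneg k
      by_cases ht : t ∈ Icc (-R) R
      · have h1 := hM (τ + max t 0) ⟨by have := le_max_right t 0; linarith, by have := max_le ht.2 hR; linarith⟩ k
        calc (1 + nk k) ^ p * (|θ t| * ‖H459R3.NS.fr (h (τ + max t 0)) k‖) = |θ t| * ((1 + nk k) ^ p * ‖H459R3.NS.fr (h (τ + max t 0)) k‖) := by ring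
          _ ≤ C * M := mul_le_mul (hC t) h1 (by positivity) hC0
      · rw [image_eq_zero_of_notMem_tsupport (fun h => ht (hs h)), abs_zero]
        simp only [zero_mul, mul_zero]
        positivity
    · rw [continuous_iff_continuousAt]
      intro t
      rcases lt_or_ge t (T - τ) with ht | ht
      · have h1 : ContinuousOn (fun t => H459R3.NS.fr (h (τ + max t 0)) k) (Iio (T - τ)) :=
          (cont_fr hh.smooth k).comp (f := fun t : ℝ => τ + max t 0) (by fun_prop : Continuous fun t : ℝ => τ + max t 0).continuousOn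
            fun s hs' => ⟨by have := le_max_right s 0; linarith, by
              have h2 : max s 0 < T - τ := max_lt hs' (by linarith)
              linarith⟩
        exact (Complex.continuous_ofReal.continuousAt.comp hθ.continuous.continuousAt).mul (h1.continuousAt (Iio_mem_nhds ht))
      · have h1 := ts_zero hs (show R < t by linarith)
        refine (continuousAt_const (y := (0 : ℂ))).congr ?_
        filter_upwards [h1] with s hs'
        rw [hs']; simp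
  intro n
  induction n with
  | zero => exact base
  | succ n ih =>
    intro θ h hθ hs hh
    have hθ' : ContDiff ℝ ∞ (deriv θ) := (contDiff_infty_iff_deriv.1 hθ).2
    have hb := base θ h hθ hs hh
    refine ⟨hb.1, hb.2, fun k t => ((deriv θ t : ℝ) : ℂ) * H459R3.NS.fr (h (τ + max t 0)) k + (θ t : ℂ) * H459R3.NS.fr (dtw T h (τ + max t 0)) k,
      fun k t ht => ?_, TT.add (ih (deriv θ) h hθ' (ts_deriv hs) hh) (ih θ (dtw T h) hθ hs hh.dtw)⟩
    rcases lt_or_ge t (T - τ) with ht' | ht'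
    · have h1 : HasDerivAt (fun s => (θ s : ℂ)) ((deriv θ t : ℝ) : ℂ) t := ((hθ.differentiable (by simp) t).hasDerivAt).ofReal_comp
      have h2 : HasDerivAt (fun s => H459R3.NS.fr (h s) k) (H459R3.NS.fr (dtw T h (τ + max t 0)) k) (τ + t) := by
        rw [max_eq_left ht.le]
        exact fr_hd hh ⟨by linarith, by linarith⟩ k
      have h3 : HasDerivAt (fun s : ℝ => τ + s) 1 t := by simpa using (hasDerivAt_id t).const_add τ
      have h4 : HasDerivAt (fun s => H459R3.NS.fr (h (τ + s)) k) (H459R3.NS.fr (dtw T h (τ + max t 0)) k) t := by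
        have h6 := h2.scomp t h3
        rw [one_smul] at h6
        exact h6
      have h5 : HasDerivAt (fun s => H459R3.NS.fr (h (τ + max s 0)) k) (H459R3.NS.fr (dtw T h (τ + max t 0)) k) t := by
        refine h4.congr_of_eventuallyEq ?_
        filter_upwards [lt_mem_nhds ht] with s hs'
        rw [max_eq_left (le_of_lt hs')]
      exact h1.mul h5
    · have h1 := ts_zero hs (show R < t by linarith)
      have h2 := ts_zero (ts_deriv hs) (show R < t by linarith)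
      have e1 : θ t = 0 := h1.self_of_nhds
      have e2 : deriv θ t = 0 := h2.self_of_nhds
      have e3 : ((deriv θ t : ℝ) : ℂ) * H459R3.NS.fr (h (τ + max t 0)) k + (θ t : ℂ) * H459R3.NS.fr (dtw T h (τ + max t 0)) k = 0 := by
        rw [e1, e2]; simp
      show HasDerivAt (fun t => (θ t : ℂ) * H459R3.NS.fr (h (τ + max t 0)) k) _ t
      simp only [e3]
      refine (hasDerivAt_const t (0 : ℂ)).congr_of_eventuallyEq ?_
      filter_upwards [h1] with s hs'
      rw [hs']; simp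

/-- multiplication with a function of time -/
lemma TT_chi {R : ℝ} : ∀ (n : ℕ) (θ : ℝ → ℝ) (c : SFam), ContDiff ℝ ∞ θ → tsupport θ ⊆ Icc (-R) R → TT n c →
    TT n (fun k t => (θ t : ℂ) * c k t) := by
  have base : ∀ (θ : ℝ → ℝ) (c : SFam), ContDiff ℝ ∞ θ → tsupport θ ⊆ Icc (-R) R → TT 0 c → TT 0 (fun k t => (θ t : ℂ) * c k t) := by
    intro θ c hθ hs hc
    refine ⟨fun m => ?_, fun k => (Complex.continuous_ofReal.comp hθ.continuous).mul (hc.2 k)⟩
    obtain ⟨C, hC0, hC⟩ := th_bd hθ.continuous hs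
    obtain ⟨b, hb, hb'⟩ := hc.1 m
    refine ⟨fun k => C * b k, hb.mul_left _, fun k t => ?_⟩
    rw [norm_mul, Complex.norm_real, Real.norm_eq_abs]
    have h1 := pow_nonneg (pw_pos k).le m
    calc pw k ^ m * (|θ t| * ‖c k t‖) = |θ t| * (pw k ^ m * ‖c k t‖) := by ring
      _ ≤ C * b k := mul_le_mul (hC t) (hb' k t) (mul_nonneg h1 (norm_nonneg _)) hC0
  intro n
  induction n with
  | zero => exact base
  | succ n ih =>
    intro θ c hθ hs hc
    have hθ' : ContDiff ℝ ∞ (deriv θ) := (contDiff_infty_iff_deriv.1 hθ).2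
    obtain ⟨h1, h2, c', h3, h4⟩ := hc
    have hb := base θ c hθ hs ⟨h1, h2⟩
    refine ⟨hb.1, hb.2, fun k t => ((deriv θ t : ℝ) : ℂ) * c k t + (θ t : ℂ) * c' k t, fun k t ht => ?_,
      TT.add (ih (deriv θ) c hθ' (ts_deriv hs) (TT.pred ⟨h1, h2, c', h3, h4⟩)) (ih θ c' hθ hs h4)⟩
    exact (((hθ.differentiable (by simp) t).hasDerivAt).ofReal_comp).mul (h3 k t ht)

end Pool.Agent.U162.SF
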