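import Pool.Agent.U162.LX.A3
import Pool.Agent.H356R3.NS.Reg4

/-!
Physical solutions with a force
-/

open MeasureTheory Set Filter Topology
open scoped ENNReal NNReal ContDiff

namespace Pool.Agent.U162.LX

open Pool.Agent.H356R3.NS Pool.Agent.U162.TS Pool.Agent.U162.TS.EL Pool.Agent.U162.PL

lemma gen_deriv' {c : ℝ} {u Fo : Fam} (hder : ∀ k t, 0 < t → HasDerivAt (u k) (-(c * H356R3.NS.sq k) • u k t + Bt u k t + Fo k t) t)
    (i : Fin 3) (k : K) {t : ℝ} (ht : 0 < t) : HasDerivAt (fun t => u k t i) (dU c u i k t + cf' Fo i k t) t := by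
  have h5 := (hasDerivAt_pi.1 (hder k t ht)) i
  refine h5.congr_deriv ?_
  unfold dU Bt Bf cvv cv at' cf'
  simp only [Pi.add_apply, Pi.smul_apply, Complex.real_smul]
  push_cast
  ring

lemma gen_TT' {c : ℝ} {u Fo : Fam} (hrd : ∀ i, RD (cf' u i)) (hcf : CF u) (hF : ∀ n i, TT n (cf' Fo i))
    (hder : ∀ k t, 0 < t → HasDerivAt (u k) (-(c * H356R3.NS.sq k) • u k t + Bt u k t + Fo k t) t) (n : ℕ) :
    ∀ i : Fin 3, TT n (cf' u i) := by
  have hc : ∀ i k, Continuous fun t => u k t i := fun i k => (continuous_apply i).comp (hcf k)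
  induction n with
  | zero => intro i; exact ⟨hrd i, hc i⟩
  | succ n ih =>
    intro i
    refine ⟨hrd i, hc i, fun k t => dU c u i k t + cf' Fo i k t, fun k t ht => gen_deriv' hder i k ht, ?_⟩
    exact TT.add (TT_dU ih i) (hF n i)

/-- physical solutions with a force -/
theorem phys_force {ν : ℝ} {u Fo : Fam} (hrd : ∀ i, RD (cf' u i)) (hcf : CF u) (hsym : SymF u)
    (hdiv : ∀ k t, dt k (u k t) = 0) (hF : ∀ n i, TT n (cf' Fo i))
    (hder : ∀ k t, 0 < t → HasDerivAt (u k) (-(4 * Real.pi ^ 2 * ν * H356R3.NS.sq k) • u k t + Bt u k t + Fo k t) t) :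
    ContDiffOn ℝ ∞ (fun z : ℝ × E3 => fun i => (GS 0 (cf' u i) z.1 z.2).re) (Ici 0 ×ˢ univ) ∧
    ContDiffOn ℝ ∞ (fun z : ℝ × E3 => (GS 0 (PF u) z.1 z.2).re) (Ici 0 ×ˢ univ) ∧
    ∀ t, 0 ≤ t → ∀ x i, HasDerivWithinAt (fun s => (GS 0 (cf' u i) s x).re)
      ((ν * ∑ j, pd j (pd j fun y => (GS 0 (cf' u i) t y).re) x
        - ∑ j, (GS 0 (cf' u j) t x).re * pd j (fun y => (GS 0 (cf' u i) t y).re) x)
        - pd i (fun y => (GS 0 (PF u) t y).re) x + (GS 0 (cf' Fo i) t x).re) (Ici 0) t := by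
  have hT : ∀ n i, TT n (cf' u i) := fun n i => gen_TT' hrd hcf hF hder n i
  have hP : ∀ n, TT n (PF u) := fun n => TT_PF (hT n)
  have hdT : ∀ n i, TT n (dU (4 * Real.pi ^ 2 * ν) u i) := fun n i => TT_dU (hT n) i
  have hsym : ∀ i k t, cf' u i (-k) t = star (cf' u i k t) := fun i k t => hsym t k i
  have hre : ∀ i t x, (GS 0 (cf' u i) t x).im = 0 := fun i t x => SF_real (hsym i) _
  refine ⟨?_, GS_smooth_re 0 hP, ?_⟩
  · rw [contDiffOn_pi]
    intro i
    exact GS_smooth_re 0 fun n => hT n i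
  · intro t ht x i
    have h1 := GS_dt 0 (hT 1 i) (c' := fun k t => dU (4 * Real.pi ^ 2 * ν) u i k t + cf' Fo i k t)
      (fun k t ht => gen_deriv' hder i k ht) (TT.add (hdT 0 i) (hF 0 i)) ht x
    have h2 := Complex.reCLM.hasFDerivAt.comp_hasDerivWithinAt t h1
    refine h2.congr_deriv ?_
    have e0 : GS 0 (fun k t => dU (4 * Real.pi ^ 2 * ν) u i k t + cf' Fo i k t) t x
        = GS 0 (dU (4 * Real.pi ^ 2 * ν) u i) t x + GS 0 (cf' Fo i) t x := SF_add (hdT 0 i).rd (hF 0 i).rd _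
    have e1 : ∀ i j, pd j (fun y => (GS 0 (cf' u i) t y).re) = fun x => (GS 0 (dS j (cf' u i)) t x).re :=
      fun i j => funext fun x => pd_GS' 0 (hT 1 i) ht j x
    have e2 : ∀ j, pd j (fun x => (GS 0 (dS j (cf' u i)) t x).re) x = (GS 0 (dS j (dS j (cf' u i))) t x).re :=
      fun j => pd_GS' 0 ((hT 1 i).dS j) ht j x
    have e3 : pd i (fun x => (GS 0 (PF u) t x).re) x = (GS 0 (dS i (PF u)) t x).re := pd_GS' 0 (hP 1) ht i x
    rw [e0, e3]
    simp only [e1, e2]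
    have key : GS 0 (dU (4 * Real.pi ^ 2 * ν) u i) t x + ∑ j, GS 0 (cf' u j) t x * GS 0 (dS j (cf' u i)) t x
        = (ν : ℂ) * ∑ j, GS 0 (dS j (dS j (cf' u i))) t x + (-1) * GS 0 (dS i (PF u)) t x := by
      have hU : ∀ i, RD (cf' u i) := fun i => (hT 0 i).rd
      have hdS : ∀ j, RD (dS j (cf' u i)) := fun j => ((hT 0 i).dS j).rd
      have hdd : ∀ j, RD (dS j (dS j (cf' u i))) := fun j => (((hT 0 i).dS j).dS j).rd
      have hdP : RD (dS i (PF u)) := ((hP 0).dS i).rd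
      have hcv : ∀ j, RD (cvv (cf' u j) (dS j (cf' u i))) := fun j => (hU j).conv (hdS j)
      have hsum1 : RD fun k t => ∑ j, cvv (cf' u j) (dS j (cf' u i)) k t :=
        (TT.sum (n := 0) Finset.univ fun j _ => (hT 0 j).conv ((hT 0 i).dS j)).rd
      have hsum2 : RD fun k t => ∑ j, dS j (dS j (cf' u i)) k t :=
        (TT.sum (n := 0) Finset.univ fun j _ => ((hT 0 i).dS j).dS j).rd
      have hone : ∀ (z : ℂ) {c : SFam}, RD c → RD fun k t => z * c k t := fun z c hc =>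
        hc.mul (C := ‖z‖) (r := 0) (p := fun _ => z) fun k => by simp
      unfold GS
      have m1 : ∀ j, SF (cf' u j) (t, x - t • (0 : E3)) * SF (dS j (cf' u i)) (t, x - t • (0 : E3))
          = SF (cvv (cf' u j) (dS j (cf' u i))) (t, x - t • (0 : E3)) := fun j => SF_mul (hU j) (hdS j) _
      simp only [m1]
      rw [← SF_sum hcv, ← SF_sum hdd, ← SF_const_mul, ← SF_const_mul, ← SF_add (hdT 0 i).rd hsum1,
        ← SF_add (hone _ hsum2) (hone _ hdP)]
      congr 1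
      funext k t
      exact fourier_eq hU hdiv i k t
    have keyre := congrArg Complex.re key
    simp only [Complex.add_re, Complex.re_sum, Complex.mul_re, hre, Complex.ofReal_re, Complex.ofReal_im,
      Complex.neg_re, Complex.one_re, Complex.neg_im, Complex.one_im] at keyre
    simp only [Complex.reCLM_apply, Complex.add_re, Complex.re_sum, Complex.mul_re, Complex.ofReal_re, Complex.ofReal_im,
      Pi.zero_apply, neg_zero, mul_zero, sub_zero, Finset.sum_const_zero, add_zero]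
    simp only [zero_mul, sub_zero, neg_zero] at keyre
    linarith

variable {c : ℝ} (hc : 0 < c) {v : K → C3} {hv : Summable fun k => ‖v k‖}

lemma X0_rd {Dv : ℕ → ℝ} (h0 : v 0 = 0) (hDv : ∀ j k, nk k ^ j * ‖v k‖ ≤ Dv j) (i : Fin 3) : RD (cf' (XX c (z0 hc v hv)) i) := by
  intro m
  obtain ⟨β, hβ, hβ'⟩ := sum_of_dec (x := fun k _ => v k) (j := m) (fun _ => h0)
    ((mul_nonneg (pow_nonneg (nk_nonneg 0) _) (norm_nonneg _)).trans (hDv (m + 4) 0)) fun k _ => hDv (m + 4) k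
  refine ⟨β, hβ, fun k t => ?_⟩
  have h1 : ‖cf' (XX c (z0 hc v hv)) i k t‖ ≤ ‖v k‖ :=
    (norm_le_pi_norm _ i).trans ((XX_le hc _ k t).trans (z0_le hc k _))
  exact (mul_le_mul_of_nonneg_left h1 (pow_nonneg (pw_pos k).le m)).trans (hβ' k t)

lemma X0_TT {Dv : ℕ → ℝ} (h0 : v 0 = 0) (hDv : ∀ j k, nk k ^ j * ‖v k‖ ≤ Dv j) (i : Fin 3) : ∀ n, TT n (cf' (XX c (z0 hc v hv)) i) := by
  have hcont : ∀ k, Continuous (cf' (XX c (z0 hc v hv)) i k) := fun k => (continuous_apply i).comp (XX_cf _ k)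
  intro n
  induction n with
  | zero => exact ⟨X0_rd hc h0 hDv i, hcont⟩
  | succ n ih =>
    refine ⟨X0_rd hc h0 hDv i, hcont, fun k t => ((-c : ℝ) : ℂ) * cf' (XX c (z0 hc v hv)) i k t, fun k t ht => ?_,
      TT.mul (C := |c|) (r := 0) (fun k => by simp) ih⟩
    have h1 := (hasDerivAt_pi.1 (X0_deriv (hv := hv) hc k ht)) i
    refine h1.congr_deriv ?_
    simp only [Pi.smul_apply, Complex.real_smul]
    rfl

lemma FW_TT {Dv : ℕ → ℝ} (h0 : v 0 = 0) (hDv : ∀ j k, nk k ^ j * ‖v k‖ ≤ Dv j) (n : ℕ) (i : Fin 3) : TT n (cf' (FW c hc v hv) i) := by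
  have hT : ∀ i, TT n (cf' (XX c (z0 hc v hv)) i) := fun i => X0_TT hc h0 hDv i n
  have h1 : TT n fun k t => ((-1 : ℝ) : ℂ) * dU c (XX c (z0 hc v hv)) i k t + ((-c : ℝ) : ℂ) * cf' (XX c (z0 hc v hv)) i k t :=
    TT.add (TT.mul (C := 1) (r := 0) (fun k => by simp) (TT_dU hT i)) (TT.mul (C := |c|) (r := 0) (fun k => by simp) (hT i))
  have e : cf' (FW c hc v hv) i = fun k t => ((-1 : ℝ) : ℂ) * dU c (XX c (z0 hc v hv)) i k t + ((-c : ℝ) : ℂ) * cf' (XX c (z0 hc v hv)) i k t := by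
    funext k t
    rw [← RH_apply]
    unfold cf' FW RH
    simp only [Pi.add_apply, Pi.sub_apply, Pi.smul_apply, Complex.real_smul]
    push_cast
    ring
  rw [e]
  exact h1

end Pool.Agent.U162.LX
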