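import Pool.Agent.U162.LX.A4
import Pool.Agent.U162.LX.A5

/-!
The force of the local problem, with uniform bounds
-/

open MeasureTheory Set Filter Topology
open scoped ENNReal NNReal ContDiff

namespace Pool.Agent.U162.SF

open Pool.Agent.H356R3.NS Pool.Agent.U162.TS Pool.Agent.U162.GE Pool.Agent.U162.TS.EL Pool.Agent.U162.TS.VF Pool.Agent.U162.TS.Ph Pool.Agent.U162.PL Pool.Agent.U162.MU Pool.Agent.U162.LX

variable {T : ℝ}

lemma le_of_Wm {f : R3 → R3} {p : ℕ} {M : ℝ} (hM0 : 0 ≤ M) (h : Wm p f ≤ ENNReal.ofReal M) (k : K) :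
    (1 + nk k) ^ p * ‖H356R3.NS.fc f k‖ ≤ M := by
  have h2 : ENNReal.ofReal ((1 + nk k) ^ p) * ‖H356R3.NS.fc f k‖ₑ ≤ ENNReal.ofReal M := (ENNReal.le_tsum k).trans h
  have h4 := nk_nonneg k
  rwa [← ofReal_norm, ← ENNReal.ofReal_mul (by positivity), ENNReal.ofReal_le_ofReal_iff hM0] at h2

lemma one_nk_sub (k l : K) : 1 + nk k ≤ (1 + nk l) * (1 + nk (k - l)) := by
  have h1 := PL.nk_add l (k - l)
  rw [add_sub_cancel] at h1
  have h2 := nk_nonneg l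
  have h3 := nk_nonneg (k - l)
  nlinarith [mul_nonneg h2 h3]

lemma Bf_unif {x : K → C3} {j : ℕ} {M : ℝ} (hM0 : 0 ≤ M)
    (h : ∑' k, ENNReal.ofReal ((1 + nk k) ^ (j + 1)) * ‖x k‖ₑ ≤ ENNReal.ofReal M) (k : K) :
    (1 + nk k) ^ j * ‖Bf x x k‖ ≤ C0 * M ^ 2 := by
  have hC := C0_pos
  have hk := nk_nonneg k
  set w : K → ℝ≥0∞ := fun k => ENNReal.ofReal ((1 + nk k) ^ (j + 1)) * ‖x k‖ₑ with hw
  have h1 : ENNReal.ofReal ((1 + nk k) ^ j * ‖Bf x x k‖) ≤ ENNReal.ofReal (C0 * M ^ 2) := by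
    rw [ENNReal.ofReal_mul (by positivity), ofReal_norm]
    calc ENNReal.ofReal ((1 + nk k) ^ j) * ‖Bf x x k‖ₑ
        ≤ ENNReal.ofReal ((1 + nk k) ^ j) * (ENNReal.ofReal (C0 * nk k) * ∑' l, ‖x l‖ₑ * ‖x (k - l)‖ₑ) := mul_le_mul' le_rfl (enorm_Bf_le x x k)
      _ ≤ ENNReal.ofReal C0 * (ENNReal.ofReal ((1 + nk k) ^ (j + 1)) * ∑' l, ‖x l‖ₑ * ‖x (k - l)‖ₑ) := by
          rw [← mul_assoc, ← mul_assoc, ← ENNReal.ofReal_mul (by positivity), ← ENNReal.ofReal_mul hC.le]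
          refine mul_le_mul' (ENNReal.ofReal_le_ofReal ?_) le_rfl
          rw [pow_succ]
          have : 0 ≤ (1 + nk k) ^ j := by positivity
          nlinarith [mul_nonneg this hC.le]
      _ ≤ ENNReal.ofReal C0 * ∑' l, w l * w (k - l) := by
          refine mul_le_mul' le_rfl ?_
          rw [← ENNReal.tsum_mul_left]
          refine ENNReal.tsum_le_tsum fun l => ?_
          have h3 := nk_nonneg l
          have h4 := nk_nonneg (k - l)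
          have h2 : ENNReal.ofReal ((1 + nk k) ^ (j + 1)) ≤ ENNReal.ofReal ((1 + nk l) ^ (j + 1)) * ENNReal.ofReal ((1 + nk (k - l)) ^ (j + 1)) := by
            rw [← ENNReal.ofReal_mul (by positivity), ← mul_pow]
            exact ENNReal.ofReal_le_ofReal (pow_le_pow_left₀ (by positivity) (one_nk_sub k l) _)
          calc ENNReal.ofReal ((1 + nk k) ^ (j + 1)) * (‖x l‖ₑ * ‖x (k - l)‖ₑ)
              ≤ (ENNReal.ofReal ((1 + nk l) ^ (j + 1)) * ENNReal.ofReal ((1 + nk (k - l)) ^ (j + 1))) * (‖x l‖ₑ * ‖x (k - l)‖ₑ) :=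
                mul_le_mul' h2 le_rfl
            _ = w l * w (k - l) := by rw [hw]; ring
      _ ≤ ENNReal.ofReal C0 * ∑' l, w l * ∑' l', w l' := by
          refine mul_le_mul' le_rfl (ENNReal.tsum_le_tsum fun l => mul_le_mul' le_rfl (ENNReal.le_tsum (k - l)))
      _ ≤ ENNReal.ofReal C0 * (ENNReal.ofReal M * ENNReal.ofReal M) := by
          rw [ENNReal.tsum_mul_right]
          exact mul_le_mul' le_rfl (mul_le_mul' h h)
      _ = _ := by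
          rw [← ENNReal.ofReal_mul hM0, ← ENNReal.ofReal_mul hC.le]
          congr 1; ring
  rwa [ENNReal.ofReal_le_ofReal_iff (by positivity)] at h1

variable {c : ℝ} (hc : 0 < c) {v : K → C3} {hv : Summable fun k => ‖v k‖}

lemma X0_le (k : K) (t : ℝ) : ‖XX c (z0 hc v hv) k t‖ ≤ ‖v k‖ := (XX_le hc _ k t).trans (z0_le hc k _)

lemma FW_unif {Mv : ℕ → ℝ} (hM0 : ∀ p, 0 ≤ Mv p) (hM : ∀ p, ∑' k, ENNReal.ofReal ((1 + nk k) ^ p) * ‖v k‖ₑ ≤ ENNReal.ofReal (Mv p))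
    (j : ℕ) (k : K) (t : ℝ) : (1 + nk k) ^ j * ‖FW c hc v hv k t‖ ≤ c * Mv (j + 2) + C0 * Mv (j + 1) ^ 2 := by
  have hk := nk_nonneg k
  have h1 : (1 + nk k) ^ j * ‖Bt (XX c (z0 hc v hv)) k t‖ ≤ C0 * Mv (j + 1) ^ 2 := by
    refine Bf_unif (hM0 _) ((ENNReal.tsum_le_tsum fun l => mul_le_mul' le_rfl ?_).trans (hM (j + 1))) k
    show ‖XX c (z0 hc v hv) l t‖ₑ ≤ _
    rw [← ofReal_norm, ← ofReal_norm]
    exact ENNReal.ofReal_le_ofReal (X0_le hc l t)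
  have h2 : (1 + nk k) ^ j * ‖(c * H356R3.NS.sq k - c) • XX c (z0 hc v hv) k t‖ ≤ c * Mv (j + 2) := by
    have h3 : (1 + nk k) ^ (j + 2) * ‖v k‖ ≤ Mv (j + 2) := by
      have h2 : ENNReal.ofReal ((1 + nk k) ^ (j + 2)) * ‖v k‖ₑ ≤ ENNReal.ofReal (Mv (j + 2)) := (ENNReal.le_tsum k).trans (hM (j + 2))
      rwa [← ofReal_norm, ← ENNReal.ofReal_mul (by positivity), ENNReal.ofReal_le_ofReal_iff (hM0 _)] at h2
    have h4 : |c * H356R3.NS.sq k - c| ≤ c * (1 + nk k) ^ 2 := by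
      rw [← H356R3.NS.nk_sq, abs_le]
      constructor <;> nlinarith [mul_nonneg hc.le hk, mul_nonneg hc.le (sq_nonneg (nk k))]
    rw [norm_smul, Real.norm_eq_abs]
    calc (1 + nk k) ^ j * (|c * H356R3.NS.sq k - c| * ‖XX c (z0 hc v hv) k t‖) ≤ (1 + nk k) ^ j * (c * (1 + nk k) ^ 2 * ‖v k‖) := by
          refine mul_le_mul_of_nonneg_left (mul_le_mul h4 (X0_le hc k t) (norm_nonneg _) (by positivity)) (by positivity)
      _ = c * ((1 + nk k) ^ (j + 2) * ‖v k‖) := by rw [pow_add]; ring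
      _ ≤ _ := mul_le_mul_of_nonneg_left h3 hc.le
  unfold FW
  calc (1 + nk k) ^ j * ‖(c * H356R3.NS.sq k - c) • XX c (z0 hc v hv) k t - Bt (XX c (z0 hc v hv)) k t‖
      ≤ (1 + nk k) ^ j * (‖(c * H356R3.NS.sq k - c) • XX c (z0 hc v hv) k t‖ + ‖Bt (XX c (z0 hc v hv)) k t‖) :=
        mul_le_mul_of_nonneg_left (norm_sub_le _ _) (by positivity)
    _ ≤ _ := by rw [mul_add]; exact add_le_add h2 h1

/-- the coefficients of the divergence free part of the given force -/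
noncomputable def EF (g : ℝ → R3 → R3) (τ : ℝ) : Fam := fun k t => if k = 0 then 0 else pr k (H356R3.NS.fc (g (τ + max t 0)) k)

/-- the force of the local problem -/
noncomputable def DF (c : ℝ) (hc : 0 < c) (v : K → C3) (hv : Summable fun k => ‖v k‖) (χ : ℝ → ℝ) (g : ℝ → R3 → R3) (τ : ℝ) : Fam :=
  fun k t => χ t • (EF g τ k t - FW c hc v hv k t)

/-- the symbol of the projection -/
noncomputable def qsy (i j : Fin 3) (k : K) : ℂ :=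
  if k = 0 then 0 else (if j = i then 1 else 0) - (k i : ℂ) * (k j : ℂ) / ((H356R3.NS.sq k : ℝ) : ℂ)

lemma qsy_le (i j : Fin 3) (k : K) : ‖qsy i j k‖ ≤ 2 * pw k ^ 0 := by
  rw [pow_zero, mul_one]
  unfold qsy
  split_ifs with h1 h2
  · simp
  all_goals
    have hs := H356R3.NS.sq_pos h1
    have h3 : ‖(k i : ℂ) * (k j : ℂ) / ((H356R3.NS.sq k : ℝ) : ℂ)‖ ≤ 1 := by
      rw [norm_div, norm_mul, Complex.norm_real, Real.norm_of_nonneg hs.le, div_le_one hs]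
      have a1 := abs_le_nk k i
      have a2 := abs_le_nk k j
      have e1 : ∀ i, ‖((k i : ℤ) : ℂ)‖ = |((k i : ℤ) : ℝ)| := fun i => by
        rw [Complex.norm_intCast]
      rw [e1, e1, ← H356R3.NS.nk_mul_self]
      exact mul_le_mul a1 a2 (abs_nonneg _) (nk_nonneg k)
    refine (norm_sub_le _ _).trans ?_
  · rw [norm_one]; linarith
  · rw [norm_zero]; linarith

lemma qsy_pr (i : Fin 3) (k : K) (a : C3) : (if k = 0 then 0 else pr k a : C3) i = ∑ j, qsy i j k * a j := by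
  unfold qsy
  split_ifs with h
  · simp
  · unfold pr H356R3.NS.dt
    simp only [sub_mul, Finset.sum_sub_distrib]
    congr 1
    · simp
    · rw [Finset.mul_sum, Finset.sum_div]
      exact Finset.sum_congr rfl fun j _ => by ring

lemma EF_TT {g : ℝ → R3 → R3} (hg : ∀ i, Sm T fun t x => g t x i) {τ R : ℝ} (hτ : 0 ≤ τ) (hR : 0 ≤ R) (hT : τ + R < T)
    {χ : ℝ → ℝ} (hχ : ContDiff ℝ ∞ χ) (hs : tsupport χ ⊆ Icc (-R) R) (n : ℕ) (i : Fin 3) :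
    TT n (fun k t => (χ t : ℂ) * EF g τ k t i) := by
  have e : (fun (k : K) (t : ℝ) => (χ t : ℂ) * EF g τ k t i)
      = fun k t => ∑ j, qsy i j k * ((χ t : ℂ) * H459R3.NS.fr (fun x => g (τ + max t 0) x j) k) := by
    funext k t
    unfold EF
    rw [qsy_pr, Finset.mul_sum]
    refine Finset.sum_congr rfl fun j _ => ?_
    rw [fr_eq_fc]; ring
  rw [e]
  exact TT.sum _ fun j _ => TT.mul (fun k => qsy_le i j k) (TT_fr hτ hR hT n χ (fun t x => g t x j) hχ hs (hg j))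

lemma DF_TT {g : ℝ → R3 → R3} (hg : ∀ i, Sm T fun t x => g t x i) {τ R : ℝ} (hτ : 0 ≤ τ) (hR : 0 ≤ R) (hT : τ + R < T)
    {χ : ℝ → ℝ} (hχ : ContDiff ℝ ∞ χ) (hs : tsupport χ ⊆ Icc (-R) R) {Dv : ℕ → ℝ} (h0 : v 0 = 0)
    (hDv : ∀ j k, nk k ^ j * ‖v k‖ ≤ Dv j) (n : ℕ) (i : Fin 3) : TT n (cf' (DF c hc v hv χ g τ) i) := by
  have e : cf' (DF c hc v hv χ g τ) i = fun k t => (χ t : ℂ) * EF g τ k t i + ((-1 : ℝ) : ℂ) * ((χ t : ℂ) * cf' (FW c hc v hv) i k t) := by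
    funext k t
    unfold cf' DF
    simp only [Pi.smul_apply, Pi.sub_apply, Complex.real_smul]
    push_cast
    ring
  rw [e]
  exact TT.add (EF_TT hg hτ hR hT hχ hs n i) (TT.mul (C := 1) (r := 0) (fun k => by simp) (TT_chi n χ _ hχ hs (FW_TT hc h0 hDv n i)))

lemma exists_bump {R : ℝ} (hR : 0 < R) : ∃ χ : ℝ → ℝ, ContDiff ℝ ∞ χ ∧ tsupport χ ⊆ Icc (-R) R ∧ (∀ t, 0 ≤ χ t ∧ χ t ≤ 1) ∧
    (∀ t, |t| ≤ R / 4 → χ t = 1) ∧ ∀ t, R / 2 ≤ |t| → χ t = 0 := by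
  let f : ContDiffBump (0 : ℝ) := ⟨R / 4, R / 2, by positivity, by linarith⟩
  refine ⟨f, f.contDiff, ?_, fun t => ⟨f.nonneg, f.le_one⟩, fun t ht => f.one_of_mem_closedBall ?_, fun t ht => f.zero_of_le_dist ?_⟩
  · rw [f.tsupport_eq, Real.closedBall_eq_Icc]
    refine Icc_subset_Icc ?_ ?_
    · show -R ≤ 0 - R / 2
      linarith
    · show 0 + R / 2 ≤ R
      linarith
  · rw [mem_closedBall_zero_iff]; exact ht
  · rw [dist_zero_right]; exact ht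

lemma DF_unif {g : ℝ → R3 → R3} {τ R b' : ℝ} (hτ : 0 ≤ τ) (hR : 0 ≤ R) (hb : τ + R ≤ b') {χ : ℝ → ℝ} (hχ1 : ∀ t, 0 ≤ χ t ∧ χ t ≤ 1)
    (hχ0 : ∀ t, R / 2 ≤ |t| → χ t = 0) {Mg Mv : ℕ → ℝ} (hMg0 : ∀ p, 0 ≤ Mg p)
    (hMg : ∀ p, ∀ t ∈ Icc 0 b', ∀ k, (1 + nk k) ^ p * ‖H356R3.NS.fc (g t) k‖ ≤ Mg p) (hM0 : ∀ p, 0 ≤ Mv p)
    (hM : ∀ p, ∑' k, ENNReal.ofReal ((1 + nk k) ^ p) * ‖v k‖ₑ ≤ ENNReal.ofReal (Mv p)) (j : ℕ) (k : K) (t : ℝ) :
    (1 + nk k) ^ j * ‖DF c hc v hv χ g τ k t‖ ≤ 4 * Mg j + (c * Mv (j + 2) + C0 * Mv (j + 1) ^ 2) := by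
  have hC := C0_pos
  have hk := nk_nonneg k
  have h0 : 0 ≤ 4 * Mg j + (c * Mv (j + 2) + C0 * Mv (j + 1) ^ 2) := by
    have := hMg0 j
    have := hM0 (j + 2)
    positivity
  unfold DF
  by_cases ht : R / 2 ≤ |t|
  · rw [hχ0 t ht, zero_smul, norm_zero, mul_zero]; exact h0
  rw [not_le] at ht
  have ht2 : t ≤ R := by
    have := le_abs_self t
    linarith
  have h1 : (1 + nk k) ^ j * ‖EF g τ k t‖ ≤ 4 * Mg j := by
    have h2 : ‖EF g τ k t‖ ≤ 4 * ‖H356R3.NS.fc (g (τ + max t 0)) k‖ := by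
      unfold EF
      split_ifs
      · rw [norm_zero]; positivity
      · exact leray_norm _ _
    have h3 := hMg j (τ + max t 0) ⟨by have := le_max_right t 0; linarith, by have := max_le ht2 hR; linarith⟩ k
    calc (1 + nk k) ^ j * ‖EF g τ k t‖ ≤ (1 + nk k) ^ j * (4 * ‖H356R3.NS.fc (g (τ + max t 0)) k‖) := mul_le_mul_of_nonneg_left h2 (by positivity)
      _ = 4 * ((1 + nk k) ^ j * ‖H356R3.NS.fc (g (τ + max t 0)) k‖) := by ring
      _ ≤ _ := mul_le_mul_of_nonneg_left h3 (by norm_num)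
  have h2 := FW_unif hc (hv := hv) hM0 hM j k t
  rw [norm_smul, Real.norm_of_nonneg (hχ1 t).1]
  calc (1 + nk k) ^ j * (χ t * ‖EF g τ k t - FW c hc v hv k t‖) ≤ (1 + nk k) ^ j * (1 * (‖EF g τ k t‖ + ‖FW c hc v hv k t‖)) :=
        mul_le_mul_of_nonneg_left (mul_le_mul (hχ1 t).2 (norm_sub_le _ _) (norm_nonneg _) zero_le_one) (by positivity)
    _ = (1 + nk k) ^ j * ‖EF g τ k t‖ + (1 + nk k) ^ j * ‖FW c hc v hv k t‖ := by ring
    _ ≤ _ := add_le_add h1 h2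

/-- the supremum in time -/
noncomputable def bs (D : Fam) (k : K) : ℝ := ⨆ t, ‖D k t‖

variable {D : Fam} {M : ℕ → ℝ}

lemma bs_bdd (h : ∀ j k t, (1 + nk k) ^ j * ‖D k t‖ ≤ M j) (k : K) : BddAbove (range fun t => ‖D k t‖) :=
  ⟨M 0, by rintro _ ⟨t, rfl⟩; simpa using h 0 k t⟩

lemma bs_ge (h : ∀ j k t, (1 + nk k) ^ j * ‖D k t‖ ≤ M j) (k : K) (t : ℝ) : ‖D k t‖ ≤ bs D k := le_ciSup (bs_bdd h k) t

lemma bs_nonneg (h : ∀ j k t, (1 + nk k) ^ j * ‖D k t‖ ≤ M j) (k : K) : 0 ≤ bs D k := (norm_nonneg _).trans (bs_ge h k 0)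

lemma bs_dec (h : ∀ j k t, (1 + nk k) ^ j * ‖D k t‖ ≤ M j) (j : ℕ) (k : K) : (1 + nk k) ^ j * bs D k ≤ M j := by
  have hk := nk_nonneg k
  rw [← le_div_iff₀' (by positivity)]
  exact ciSup_le fun t => (le_div_iff₀' (by positivity)).2 (h j k t)

lemma bs_dec' (h : ∀ j k t, (1 + nk k) ^ j * ‖D k t‖ ≤ M j) (j : ℕ) (k : K) : nk k ^ j * bs D k ≤ M j := by
  have hk := nk_nonneg k
  refine le_trans (mul_le_mul_of_nonneg_right (pow_le_pow_left₀ hk (by linarith) j) (bs_nonneg h k)) (bs_dec h j k)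

lemma bs_le (h : ∀ j k t, (1 + nk k) ^ j * ‖D k t‖ ≤ M j) (k : K) : bs D k ≤ M 4 * sb k := by
  have hk := nk_nonneg k
  have h0 : 0 ≤ M 4 := (mul_nonneg (by positivity) (bs_nonneg h k)).trans (bs_dec h 4 k)
  refine le_trans ?_ (mul_le_mul_of_nonneg_left (sb_ge k) h0)
  rw [mul_one_div, le_div_iff₀' (by positivity)]
  exact bs_dec h 4 k

lemma bs_sum (h : ∀ j k t, (1 + nk k) ^ j * ‖D k t‖ ≤ M j) : Summable (bs D) :=
  (sb_sum.mul_left (M 4)).of_nonneg_of_le (bs_nonneg h) (bs_le h)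

lemma bs_tsum (h : ∀ j k t, (1 + nk k) ^ j * ‖D k t‖ ≤ M j) : ∑' k, bs D k ≤ M 4 * ∑' k, sb k := by
  rw [← tsum_mul_left]
  exact (bs_sum h).tsum_le_tsum (bs_le h) (sb_sum.mul_left _)

end Pool.Agent.U162.SF
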