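import Pool.Agent.U162.LX.A6

/-!
The physical local solution with the given force
-/

open MeasureTheory Set Filter Topology
open scoped ENNReal NNReal ContDiff

namespace Pool.Agent.U162.SF

open Pool.Agent.H356R3.NS Pool.Agent.U162.TS Pool.Agent.U162.GE Pool.Agent.U162.TS.EL Pool.Agent.U162.TS.VF Pool.Agent.U162.TS.Ph Pool.Agent.U162.PL Pool.Agent.U162.MU Pool.Agent.U162.LX

variable {T ν : ℝ}

/-- a smooth local solution with the given force -/
structure Lcl (ν h : ℝ) (g : ℝ → R3 → R3) (τ : ℝ) (A : R3 → R3) (U : ℝ → R3 → R3) (P : ℝ → R3 → ℝ) : Prop where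
  init : U 0 = A
  su : ContDiffOn ℝ ∞ (fun z : ℝ × R3 => U z.1 z.2) (Ici 0 ×ˢ univ)
  sp : ContDiffOn ℝ ∞ (fun z : ℝ × R3 => P z.1 z.2) (Ici 0 ×ˢ univ)
  fu : ∀ t, 0 ≤ t → Field (U t)
  pp : ∀ t, 0 ≤ t → ∀ x j, P t (x + Pi.single j 1) = P t x
  mo : ∀ t ∈ Icc 0 h, ∀ x i, HasDerivWithinAt (fun s => U s x i) (g (τ + t) x i - Rs ν (U t) x i - pd i (P t) x) (Ici 0) t

lemma ps_eq (k : K) (a : C3) : dt k a / (2 * Real.pi * Complex.I * ((H356R3.NS.sq k : ℝ) : ℂ))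
    = ∑ j, ((k j : ℂ) / (2 * Real.pi * Complex.I * ((H356R3.NS.sq k : ℝ) : ℂ))) * a j := by
  unfold H356R3.NS.dt
  rw [Finset.sum_div]
  exact Finset.sum_congr rfl fun j _ => by ring

lemma ps_le (j : Fin 3) (k : K) : ‖(k j : ℂ) / (2 * Real.pi * Complex.I * ((H356R3.NS.sq k : ℝ) : ℂ))‖ ≤ 1 * pw k ^ 0 := by
  rw [pow_zero, mul_one]
  by_cases hk : k = 0
  · subst hk; simp
  have hs := H356R3.NS.sq_pos hk
  have h1 := one_le_nk hk
  have hp := Real.pi_gt_three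
  rw [norm_div, norm_mul, norm_two_pi_I, Complex.norm_real, Real.norm_of_nonneg hs.le, div_le_one (by positivity), Complex.norm_intCast,
    ← H356R3.NS.nk_sq]
  refine (abs_le_nk k j).trans ?_
  nlinarith

lemma pf_TT {g : ℝ → R3 → R3} (hg : ∀ i, Sm T fun t x => g t x i) {τ R : ℝ} (hτ : 0 ≤ τ) (hR : 0 ≤ R) (hT : τ + R < T)
    {χ : ℝ → ℝ} (hχ : ContDiff ℝ ∞ χ) (hs : tsupport χ ⊆ Icc (-R) R) (n : ℕ) :
    TT n (fun k t => (χ t : ℂ) * pots (g (τ + max t 0)) k) := by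
  have e : (fun (k : K) (t : ℝ) => (χ t : ℂ) * pots (g (τ + max t 0)) k)
      = fun k t => ∑ j, ((k j : ℂ) / (2 * Real.pi * Complex.I * ((H356R3.NS.sq k : ℝ) : ℂ)))
        * ((χ t : ℂ) * H459R3.NS.fr (fun x => g (τ + max t 0) x j) k) := by
    funext k t
    unfold pots
    rw [ps_eq, Finset.mul_sum]
    refine Finset.sum_congr rfl fun j _ => ?_
    rw [fr_eq_fc]; ring
  rw [e]
  exact TT.sum _ fun j _ => TT.mul (fun k => ps_le j k) (TT_fr hτ hR hT n χ (fun t x => g t x j) hχ hs (hg j))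

lemma GS_fld (X : Fam) (t : ℝ) : (fun x i => (GS 0 (cf' X i) t x).re) = fld (fun k => X k t) := by
  funext x i
  unfold GS SF fld
  rw [smul_zero, sub_zero]
  rfl

lemma DF_real {c : ℝ} (hc : 0 < c) {A : R3 → R3} (hA : Field A) {hv : Summable fun k => ‖H356R3.NS.fc A k‖} {χ : ℝ → ℝ}
    {g : ℝ → R3 → R3} {τ : ℝ} (hg : ∀ t, χ t ≠ 0 → SPF (g (τ + max t 0))) (k : K) (t : ℝ) (i : Fin 3) :
    DF c hc (fun k => H356R3.NS.fc A k) hv χ g τ (-k) t i = star (DF c hc (fun k => H356R3.NS.fc A k) hv χ g τ k t i) := by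
  by_cases h0 : χ t = 0
  · unfold DF; rw [h0]; simp
  have h1 : EF g τ (-k) t i = star (EF g τ k t i) := (proj_dta (hg t h0)).real k i
  have hX : SymF (XX c (z0 hc (fun k => H356R3.NS.fc A k) hv)) := by
    intro t k i
    show XX c _ (-k) t i = star (XX c _ k t i)
    rw [X0_apply, X0_apply, Pi.smul_apply, Pi.smul_apply, star_smul, hA.dta.real, star_trivial (Real.exp _)]
  have h2 : FW c hc (fun k => H356R3.NS.fc A k) hv (-k) t i = star (FW c hc (fun k => H356R3.NS.fc A k) hv k t i) := by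
    unfold FW
    have h3 : Bt (XX c (z0 hc (fun k => H356R3.NS.fc A k) hv)) (-k) t i = star (Bt (XX c (z0 hc (fun k => H356R3.NS.fc A k) hv)) k t i) :=
      Bt_sym hX t k i
    have h4 : XX c (z0 hc (fun k => H356R3.NS.fc A k) hv) (-k) t i = star (XX c (z0 hc (fun k => H356R3.NS.fc A k) hv) k t i) := hX t k i
    simp only [Pi.sub_apply, Pi.smul_apply]
    rw [h3, h4, H356R3.NS.sq_neg, star_sub, star_smul, star_trivial (_ : ℝ)]
  unfold DF
  simp only [Pi.sub_apply, Pi.smul_apply]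
  rw [h1, h2, star_smul, star_sub, star_trivial (_ : ℝ)]

lemma dt_sub' (k : K) (a b : C3) : dt k (a - b) = dt k a - dt k b := by
  unfold H356R3.NS.dt
  simp only [Pi.sub_apply, mul_sub, Finset.sum_sub_distrib]

lemma DF_div {c : ℝ} (hc : 0 < c) {A : R3 → R3} (hA : Field A) {hv : Summable fun k => ‖H356R3.NS.fc A k‖} {χ : ℝ → ℝ}
    {g : ℝ → R3 → R3} {τ : ℝ} (hg : ∀ t, χ t ≠ 0 → SPF (g (τ + max t 0))) (k : K) (t : ℝ) :
    dt k (DF c hc (fun k => H356R3.NS.fc A k) hv χ g τ k t) = 0 := by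
  by_cases h0 : χ t = 0
  · unfold DF; rw [h0]; simp [H356R3.NS.dt]
  have h1 : dt k (EF g τ k t) = 0 := (proj_dta (hg t h0)).div k
  have h2 : dt k (FW c hc (fun k => H356R3.NS.fc A k) hv k t) = 0 := by
    unfold FW
    rw [dt_sub', X0_apply, TS.dt_smul', TS.dt_smul', hA.dta.div]
    have : dt k (Bt (XX c (z0 hc (fun k => H356R3.NS.fc A k) hv)) k t) = 0 := Bf_div _ _ k
    rw [this]; simp
  unfold DF
  rw [TS.dt_smul', dt_sub', h1, h2]; simp

/-- the physical solution -/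
theorem loc_phys {c : ℝ} (hc : 0 < c) (hcν : c = 4 * Real.pi ^ 2 * ν) {A : R3 → R3} (hA : Field A) {hv : Summable fun k => ‖H356R3.NS.fc A k‖}
    {g : ℝ → R3 → R3} (hg : ∀ i, Sm T fun t x => g t x i) (hgm : ∀ t ∈ Ico 0 T, H356R3.NS.fc (g t) 0 = 0) {τ R : ℝ} (hτ : 0 ≤ τ)
    (hR : 0 ≤ R) (hT : τ + R < T) {χ : ℝ → ℝ} (hχ : ContDiff ℝ ∞ χ) (hs : tsupport χ ⊆ Icc (-R) R) (hχ1 : ∀ t, |t| ≤ R / 4 → χ t = 1)
    {Dv Db : ℕ → ℝ} (hDv : ∀ j k, nk k ^ j * ‖H356R3.NS.fc A k‖ ≤ Dv j) {b : K → ℝ}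
    (hDb : ∀ j k, nk k ^ j * b k ≤ Db j) {hD : Fc (DF c hc (fun k => H356R3.NS.fc A k) hv χ g τ) b R} {z : EE}
    (hz : Sl c hc (fun k => H356R3.NS.fc A k) hv hR hD z) :
    ∃ U P, Lcl ν (R / 4) g τ A U P ∧ ∀ t, 0 ≤ t → ∀ k, H356R3.NS.fc (U t) k = XX c z k t := by
  set v : K → C3 := fun k => H356R3.NS.fc A k with hvdef
  have dA := hA.dta
  have h0 : v 0 = 0 := dA.mean
  have hgs : ∀ t ∈ Ico 0 T, SPF (g t) := fun t ht i => (hg i).sp t ht
  have hgχ : ∀ t, χ t ≠ 0 → SPF (g (τ + max t 0)) := fun t ht => by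
    have h1 : t ∈ Icc (-R) R := hs (subset_tsupport χ ht)
    exact hgs _ ⟨by have := le_max_right t 0; linarith, by have := max_le h1.2 hR; linarith⟩
  have hrd := Sl_rd hc hz h0 hDv hDb
  have hcf : CF (XX c z) := XX_cf z
  have hsym := Sl_sym hc hz dA.real (DF_real hc hA hgχ)
  have hdiv := Sl_div hc hz h0 dA.div (DF_div hc hA hgχ)
  set Fo : Fam := fun k t => FW c hc v hv k t + DF c hc v hv χ g τ k t with hFo
  have hF : ∀ n i, TT n (cf' Fo i) := fun n i => TT.add (FW_TT hc h0 hDv n i) (DF_TT hc hg hτ hR hT hχ hs h0 hDv n i)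
  have hder : ∀ k t, 0 < t → HasDerivAt (XX c z k) (-(4 * Real.pi ^ 2 * ν * H356R3.NS.sq k) • XX c z k t + Bt (XX c z) k t + Fo k t) t :=
    fun k t ht => by rw [← hcν]; exact Sl_ode hc hz h0 k t ht
  obtain ⟨p1, p2, p3⟩ := phys_force hrd hcf hsym hdiv hF hder
  have hTX : ∀ n i, TT n (cf' (XX c z) i) := fun n i => gen_TT' hrd hcf hF hder n i
  have hPX : ∀ n, TT n (PF (XX c z)) := fun n => TT_PF (hTX n)
  have hpf := pf_TT hg hτ hR hT hχ hs
  set pf : SFam := fun k t => (χ t : ℂ) * pots (g (τ + max t 0)) k with hpfd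
  have hdta : ∀ t, Dta fun k => XX c z k t := fun t => by
    have hd := Sl_dec hc hz (E := Real.exp (c / 2 * R) * R) le_rfl (G := max (∑' k, ‖v k‖) ‖z‖) (le_max_left _ _)
      (fun t => (z_G z t).trans (le_max_right _ _)) hDv hDb
    have hdec : ∀ j : ℕ, ∃ D : ℝ, ∀ k, nk k ^ j * ‖XX c z k t‖ ≤ D := fun j =>
      ⟨_, fun k => (mul_le_mul_of_nonneg_left (XX_le hc z k t) (pow_nonneg (nk_nonneg k) j)).trans (hd j k (max t 0))⟩
    exact ⟨summ_of_dec (XX_zero' hc hz h0 t) hdec, XX_zero' hc hz h0 t, fun k i => hsym t k i, fun k => hdiv k t, hdec⟩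
  have eU : ∀ t, (fun x i => (GS 0 (cf' (XX c z) i) t x).re) = fld (fun k => XX c z k t) := fun t => GS_fld (XX c z) t
  have sP1 : ∀ t, 0 ≤ t → H459R3.NS.SP fun x => (GS 0 (PF (XX c z)) t x).re := fun t ht => by
    refine ⟨?_, fun j x => by rw [GS_periodic]⟩
    rw [← contDiffOn_univ]
    exact p2.comp (f := fun x : R3 => ((t, x) : ℝ × R3)) (contDiff_const.prodMk contDiff_id).contDiffOn fun x _ => ⟨ht, trivial⟩
  refine ⟨fun t x i => (GS 0 (cf' (XX c z) i) t x).re, fun t x => (GS 0 (PF (XX c z)) t x).re + (GS 0 pf t x).re,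
    ⟨?_, p1, p2.add (GS_smooth_re 0 hpf), fun t _ => ?_, fun t _ x j => ?_, fun t ht x i => ?_⟩, fun t _ k => ?_⟩
  · show (fun x i => (GS 0 (cf' (XX c z) i) 0 x).re) = A
    rw [eU]
    have e1 : (fun k => XX c z k 0) = fun k => H356R3.NS.fc A k := funext fun k => Sl_init hc hz h0 k
    rw [e1, hA.eq_fld]
  · show Field (fun x i => (GS 0 (cf' (XX c z) i) t x).re)
    rw [eU]
    exact fld_field (hdta t)
  · show (GS 0 (PF (XX c z)) t (x + Pi.single j 1)).re + (GS 0 pf t (x + Pi.single j 1)).re = _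
    rw [GS_periodic, GS_periodic]
  · have ht4 : |t| ≤ R / 4 := by rw [abs_of_nonneg ht.1]; exact ht.2
    have hx1 := hχ1 t ht4
    have htT : τ + t ∈ Ico 0 T := ⟨by linarith [ht.1], by linarith [ht.2]⟩
    have hmx : max t 0 = t := max_eq_left ht.1
    have h1 := p3 t ht.1 x i
    refine h1.congr_deriv ?_
    -- the force
    have e1 : (GS 0 (cf' Fo i) t x).re = ler (g (τ + t)) x i := by
      have e2 : (GS 0 (cf' Fo i) t x).re = fld (fun k => Fo k t) x i := congrFun (congrFun (GS_fld Fo t) x) i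
      rw [e2]
      have e3 : (fun k => Fo k t) = fun k => if k = 0 then 0 else pr k (H356R3.NS.fc (g (τ + t)) k) := by
        funext k
        show FW c hc v hv k t + DF c hc v hv χ g τ k t = _
        unfold DF EF
        rw [hx1, one_smul, hmx]
        abel
      rw [e3]
      rfl
    have e4 : (fun y => (GS 0 pf t y).re) = pot (g (τ + t)) := by
      funext y
      unfold GS SF pot scl
      rw [smul_zero, sub_zero]
      congr 1
      refine tsum_congr fun k => ?_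
      show (χ t : ℂ) * pots (g (τ + max t 0)) k * ex k y = _
      rw [hx1, hmx, Complex.ofReal_one, one_mul]
      rfl
    have e5 : pd i (fun y => (GS 0 (PF (XX c z)) t y).re + (GS 0 pf t y).re) x
        = pd i (fun y => (GS 0 (PF (XX c z)) t y).re) x + pd i (pot (g (τ + t))) x := by
      rw [← e4]
      have h2 : H459R3.NS.SP fun y => (GS 0 pf t y).re := by rw [e4]; exact pot_sp (hgs _ htT)
      exact pd_add' (sP1 t ht.1) h2 i x
    show _ = g (τ + t) x i - Rs ν (fun x i => (GS 0 (cf' (XX c z) i) t x).re) x i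
      - pd i (fun y => (GS 0 (PF (XX c z)) t y).re + (GS 0 pf t y).re) x
    rw [e5, e1, leray_dec (hgs _ htT) (hgm _ htT) x i]
    show _ = _ - (∑ j, (GS 0 (cf' (XX c z) j) t x).re * pd j (fun y => (GS 0 (cf' (XX c z) i) t y).re) x
      + (-ν) * ∑ j, pd j (pd j fun y => (GS 0 (cf' (XX c z) i) t y).re) x) - _
    ring
  · show H356R3.NS.fc (fun x i => (GS 0 (cf' (XX c z) i) t x).re) k = _
    rw [eU]
    funext i
    exact fld_fc (hdta t) k i

end Pool.Agent.U162.SF
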