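import Pool.Agent.U162.LX.A7

/-!
Local solutions with the given force, close to the initial datum, with a uniform time of existence
-/

open MeasureTheory Set Filter Topology
open scoped ENNReal NNReal ContDiff

namespace Pool.Agent.U162.SF

open Pool.Agent.H356R3.NS Pool.Agent.U162.TS Pool.Agent.U162.GE Pool.Agent.U162.TS.EL Pool.Agent.U162.TS.VF Pool.Agent.U162.TS.Ph Pool.Agent.U162.PL Pool.Agent.U162.MU Pool.Agent.U162.LX

variable {T ν : ℝ}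

lemma real_Wm {f : R3 → R3} {p : ℕ} {M : ℝ} (hM0 : 0 ≤ M) (h : Wm p f ≤ ENNReal.ofReal M) :
    Summable (fun k => (1 + nk k) ^ p * ‖H356R3.NS.fc f k‖) ∧ ∑' k, (1 + nk k) ^ p * ‖H356R3.NS.fc f k‖ ≤ M := by
  have h0 : ∀ k, 0 ≤ (1 + nk k) ^ p * ‖H356R3.NS.fc f k‖ := fun k => by have := nk_nonneg k; positivity
  have e : ∀ k : K, ENNReal.ofReal ((1 + nk k) ^ p) * ‖H356R3.NS.fc f k‖ₑ = ENNReal.ofReal ((1 + nk k) ^ p * ‖H356R3.NS.fc f k‖) := fun k => by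
    rw [← ofReal_norm, ← ENNReal.ofReal_mul (by have := nk_nonneg k; positivity)]
  unfold Wm at h
  simp only [e] at h
  have h2 : Summable fun k : K => (1 + nk k) ^ p * ‖H356R3.NS.fc f k‖ := by
    have h3 := ENNReal.summable_toReal (ne_top_of_le_ne_top ENNReal.ofReal_ne_top h)
    exact h3.congr fun k => ENNReal.toReal_ofReal (h0 k)
  refine ⟨h2, ?_⟩
  rwa [← ENNReal.ofReal_tsum_of_nonneg h0 h2, ENNReal.ofReal_le_ofReal_iff hM0] at h

lemma Wm_le_real {f : R3 → R3} {p : ℕ} {a : K → ℝ} (ha : Summable a) (h : ∀ k, (1 + nk k) ^ p * ‖H356R3.NS.fc f k‖ ≤ a k) {M : ℝ}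
    (hM : ∑' k, a k ≤ M) : Wm p f ≤ ENNReal.ofReal M := by
  have h0 : ∀ k, 0 ≤ (1 + nk k) ^ p * ‖H356R3.NS.fc f k‖ := fun k => by have := nk_nonneg k; positivity
  have e : ∀ k : K, ENNReal.ofReal ((1 + nk k) ^ p) * ‖H356R3.NS.fc f k‖ₑ ≤ ENNReal.ofReal (a k) := fun k => by
    rw [← ofReal_norm, ← ENNReal.ofReal_mul (by have := nk_nonneg k; positivity)]
    exact ENNReal.ofReal_le_ofReal (h k)
  unfold Wm
  refine (ENNReal.tsum_le_tsum e).trans ?_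
  rw [← ENNReal.ofReal_tsum_of_nonneg (fun k => (h0 k).trans (h k)) ha]
  exact ENNReal.ofReal_le_ofReal hM

lemma close_term {c : ℝ} (hc : 0 < c) {v : K → C3} {hv : Summable fun k => ‖v k‖} (h0 : v 0 = 0) {z : EE} (hz0 : ∀ t, z 0 t = 0)
    {m : ℕ} {A B Λ h t : ℝ} (hΛ : 1 ≤ Λ) (hA0 : 0 ≤ A) (hB0 : 0 ≤ B) (hA : ∀ k t, nk k ^ (m + 5) * ‖z k t‖ ≤ A) (hB : ∀ k, nk k ^ (m + 5) * ‖v k‖ ≤ B)
    (ht : t ∈ Icc 0 h) (k : K) : (1 + nk k) ^ m * ‖XX c z k t - v k‖ ≤ (1 + Λ) ^ m * ‖(z - z0 hc v hv) k t‖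
      + 2 ^ m * (A + B) / Λ * (if k = 0 then (0 : ℝ) else 1 / nk k ^ 4) + c * h * ((1 + nk k) ^ m * ‖v k‖) := by
  have hk := nk_nonneg k
  have ht0 : max t 0 = t := max_eq_left ht.1
  have e1 : XX c z k t - v k = Real.exp (-(c / 2 * t)) • (z k t - z0 hc v hv k t) + (Real.exp (-(c * t)) - 1) • v k := by
    have e2 : XX c (z0 hc v hv) k t = Real.exp (-(c * t)) • v k := by rw [X0_apply, ht0]
    have e3 : XX c (z0 hc v hv) k t = Real.exp (-(c / 2 * t)) • z0 hc v hv k t := by unfold XX; rw [ht0]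
    have e4 : XX c z k t = Real.exp (-(c / 2 * t)) • z k t := by unfold XX; rw [ht0]
    rw [e4, smul_sub, ← e3, e2, sub_smul, one_smul]
    abel
  have ect : 0 ≤ c * t := mul_nonneg hc.le ht.1
  have n1 : ‖Real.exp (-(c / 2 * t)) • (z k t - z0 hc v hv k t)‖ ≤ ‖(z - z0 hc v hv) k t‖ := by
    rw [norm_smul, Real.norm_of_nonneg (Real.exp_pos _).le]
    have : (z - z0 hc v hv) k t = z k t - z0 hc v hv k t := by
      rw [lp.coeFn_sub, Pi.sub_apply, BoundedContinuousFunction.sub_apply]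
    rw [this]
    refine mul_le_of_le_one_left (norm_nonneg _) ?_
    rw [Real.exp_le_one_iff]
    linarith
  have n2 : ‖(Real.exp (-(c * t)) - 1) • v k‖ ≤ c * h * ‖v k‖ := by
    rw [norm_smul, Real.norm_eq_abs]
    refine mul_le_mul_of_nonneg_right ?_ (norm_nonneg _)
    have a1 := Real.add_one_le_exp (-(c * t))
    have a2 : Real.exp (-(c * t)) ≤ 1 := by rw [Real.exp_le_one_iff]; linarith
    have a3 : c * t ≤ c * h := mul_le_mul_of_nonneg_left ht.2 hc.le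
    rw [abs_le]; constructor <;> linarith
  have n3 : ‖XX c z k t - v k‖ ≤ ‖(z - z0 hc v hv) k t‖ + c * h * ‖v k‖ := by
    rw [e1]; exact (norm_add_le _ _).trans (add_le_add n1 n2)
  have key : (1 + nk k) ^ m * ‖(z - z0 hc v hv) k t‖ ≤ (1 + Λ) ^ m * ‖(z - z0 hc v hv) k t‖
      + 2 ^ m * (A + B) / Λ * (if k = 0 then (0 : ℝ) else 1 / nk k ^ 4) := by
    have ed : (z - z0 hc v hv) k t = z k t - z0 hc v hv k t := by
      rw [lp.coeFn_sub, Pi.sub_apply, BoundedContinuousFunction.sub_apply]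
    have hn := norm_nonneg ((z - z0 hc v hv) k t)
    by_cases hk0 : k = 0
    · subst hk0
      rw [if_pos rfl, mul_zero, add_zero]
      refine mul_le_mul_of_nonneg_right (pow_le_pow_left₀ (by positivity) ?_ m) hn
      rw [nk_zero]; linarith
    rw [if_neg hk0]
    have hkp := nk_pos hk0
    have hk1 := one_le_nk hk0
    have hΛ0 : 0 < Λ := by linarith
    rcases le_or_gt (nk k) Λ with h5 | h5
    · have : 0 ≤ 2 ^ m * (A + B) / Λ * (1 / nk k ^ 4) := by positivity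
      have h6 : (1 + nk k) ^ m * ‖(z - z0 hc v hv) k t‖ ≤ (1 + Λ) ^ m * ‖(z - z0 hc v hv) k t‖ :=
        mul_le_mul_of_nonneg_right (pow_le_pow_left₀ (by positivity) (by linarith) m) hn
      linarith
    · have h6 : (1 + nk k) ^ m ≤ 2 ^ m * nk k ^ m := by
        rw [← mul_pow]; exact pow_le_pow_left₀ (by positivity) (by linarith) m
      have h7 : nk k ^ (m + 5) * ‖(z - z0 hc v hv) k t‖ ≤ A + B := by
        rw [ed]
        calc nk k ^ (m + 5) * ‖z k t - z0 hc v hv k t‖ ≤ nk k ^ (m + 5) * (‖z k t‖ + ‖z0 hc v hv k t‖) :=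
              mul_le_mul_of_nonneg_left (norm_sub_le _ _) (by positivity)
          _ = nk k ^ (m + 5) * ‖z k t‖ + nk k ^ (m + 5) * ‖z0 hc v hv k t‖ := by ring
          _ ≤ A + B := add_le_add (hA k t) ((mul_le_mul_of_nonneg_left (z0_le hc k t) (by positivity)).trans (hB k))
      have h8 : (1 + nk k) ^ m * ‖(z - z0 hc v hv) k t‖ ≤ 2 ^ m * (A + B) / Λ * (1 / nk k ^ 4) := by
        rw [mul_one_div, div_div, le_div_iff₀ (by positivity)]
        calc (1 + nk k) ^ m * ‖(z - z0 hc v hv) k t‖ * (Λ * nk k ^ 4) ≤ (2 ^ m * nk k ^ m) * ‖(z - z0 hc v hv) k t‖ * (nk k * nk k ^ 4) := by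
              gcongr
          _ = 2 ^ m * (nk k ^ (m + 5) * ‖(z - z0 hc v hv) k t‖) := by rw [pow_add]; ring
          _ ≤ 2 ^ m * (A + B) := mul_le_mul_of_nonneg_left h7 (by positivity)
      have : 0 ≤ (1 + Λ) ^ m * ‖(z - z0 hc v hv) k t‖ := by positivity
      linarith
  calc (1 + nk k) ^ m * ‖XX c z k t - v k‖ ≤ (1 + nk k) ^ m * (‖(z - z0 hc v hv) k t‖ + c * h * ‖v k‖) :=
        mul_le_mul_of_nonneg_left n3 (by positivity)
    _ = (1 + nk k) ^ m * ‖(z - z0 hc v hv) k t‖ + c * h * ((1 + nk k) ^ m * ‖v k‖) := by ring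
    _ ≤ _ := add_le_add key le_rfl

/-- local solutions with the given force -/
theorem locsol (hν : 0 < ν) {g v : ℝ → R3 → R3} (hg : ∀ i, Sm T fun t x => g t x i) (hgm : ∀ t ∈ Ico 0 T, H356R3.NS.fc (g t) 0 = 0)
    (hv : ∀ i, Sm T fun t x => v t x i) (hvf : ∀ t ∈ Ico 0 T, Field (v t)) {b : ℝ} (hb : b < T) (m : ℕ) {w : ℝ} (hw : 0 < w) :
    ∃ h : ℝ, 0 < h ∧ ∀ τ ∈ Icc 0 b, τ + h < T ∧ ∃ U P, Lcl ν h g τ (v τ) U P ∧
      ∀ t ∈ Icc 0 h, Wm m (fun x => U t x - v τ x) ≤ ENNReal.ofReal w := by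
  obtain ⟨c, hcν⟩ : ∃ c : ℝ, c = 4 * Real.pi ^ 2 * ν := ⟨_, rfl⟩
  have hc : 0 < c := by rw [hcν]; have := Real.pi_pos; positivity
  have hC := C0_pos
  set b' := (b + T) / 2 with hb'
  have hb'T : b' < T := by rw [hb']; linarith
  choose Mg hMg0 hMg using fun p => Wm_bd hg hb'T p
  choose Mv hMv0 hMv using fun p => Wm_bd hv hb'T p
  set R₀ := (T - b) / 2 with hR₀d
  have hR₀ : 0 < R₀ := by rw [hR₀d]; linarith
  set E := Real.exp (c / 2 * R₀) * R₀ with hE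
  set MD : ℕ → ℝ := fun j => 4 * Mg j + (c * Mv (j + 2) + C0 * Mv (j + 1) ^ 2) with hMD
  have hMD0 : ∀ j, 0 ≤ MD j := fun j => by
    have := hMg0 j
    have := hMv0 (j + 2)
    rw [hMD]; positivity
  obtain ⟨L, hL0, hL⟩ := solve_near hc (hMv0 0)
  set A₁ := |Ae c (Mv 0 + 1) E Mv MD (m + 5)| with hA₁
  have hA₁0 : 0 ≤ A₁ := abs_nonneg _
  have hs4 : 0 ≤ s4 := s4_nonneg
  have hm5 := hMv0 (m + 5)
  obtain ⟨Λ, hΛ1, hΛ⟩ : ∃ Λ : ℝ, 1 ≤ Λ ∧ 2 ^ m * (A₁ + Mv (m + 5)) / Λ * s4 ≤ w / 3 := by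
    have h1 : 0 ≤ 2 ^ m * (A₁ + Mv (m + 5)) * s4 / (w / 3) := by positivity
    refine ⟨1 + 2 ^ m * (A₁ + Mv (m + 5)) * s4 / (w / 3), by linarith, ?_⟩
    rw [div_mul_eq_mul_div, div_le_iff₀ (by linarith)]
    have h2 : w / 3 * (2 ^ m * (A₁ + Mv (m + 5)) * s4 / (w / 3)) = 2 ^ m * (A₁ + Mv (m + 5)) * s4 := by field_simp
    have h3 : 0 < w / 3 := by positivity
    linarith
  have hsb : 0 ≤ ∑' k, sb k := tsum_nonneg fun k => le_trans (by have := nk_nonneg k; positivity) (sb_ge k)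
  set B₁ := MD 4 * ∑' k, sb k with hB₁
  have hB₁0 : 0 ≤ B₁ := mul_nonneg (hMD0 4) hsb
  have hm0 := hMv0 m
  have hex : 0 < Real.exp (c / 2 * R₀) := Real.exp_pos _
  set Q := L * Real.exp (c / 2 * R₀) * B₁ * (1 + Λ) ^ m + c * Mv m + 1 with hQ
  have hQ1 : 0 ≤ L * Real.exp (c / 2 * R₀) * B₁ * (1 + Λ) ^ m := by positivity
  have hQ2 : 0 ≤ c * Mv m := by positivity
  have hQ0 : 0 < Q := by linarith
  set omg := min 1 (w / 3) with hom
  have hom0 : 0 < omg := lt_min one_pos (by positivity)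
  have hom1 : omg ≤ 1 := min_le_left _ _
  have hom2 : omg ≤ w / 3 := min_le_right _ _
  set R := min R₀ (omg / Q) with hRd
  have hR : 0 < R := lt_min hR₀ (by positivity)
  have hRR : R ≤ R₀ := min_le_left _ _
  have hRQ : Q * R ≤ omg := by
    have : R ≤ omg / Q := min_le_right _ _
    rwa [le_div_iff₀' hQ0] at this
  obtain ⟨χ, hχ, hχs, hχ01, hχ1, hχ0⟩ := exists_bump hR
  refine ⟨R / 4, by positivity, fun τ hτ => ⟨by linarith [hτ.2], ?_⟩⟩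
  have hτT : τ ∈ Ico 0 T := ⟨hτ.1, hτ.2.trans_lt hb⟩
  have hτb' : τ ∈ Icc 0 b' := ⟨hτ.1, by linarith [hτ.2]⟩
  have hτR : τ + R ≤ b' := by linarith [hτ.2]
  have hA := hvf τ hτT
  have dA := hA.dta
  have r0 := real_Wm (hMv0 0) (hMv 0 τ hτb')
  have hsum : ∑' k, ‖H356R3.NS.fc (v τ) k‖ ≤ Mv 0 := by simpa using r0.2
  have hDv : ∀ j k, nk k ^ j * ‖H356R3.NS.fc (v τ) k‖ ≤ Mv j := fun j k => by
    refine le_trans ?_ (le_of_Wm (hMv0 j) (hMv j τ hτb') k)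
    have := nk_nonneg k
    gcongr
    linarith
  have hDu : ∀ j k t, (1 + nk k) ^ j * ‖DF c hc (fun k => H356R3.NS.fc (v τ) k) dA.sum χ g τ k t‖ ≤ MD j := fun j k t =>
    DF_unif hc hτ.1 hR.le hτR hχ01 hχ0 hMg0 (fun p t ht k => le_of_Wm (hMg0 p) (hMg p t ht) k) hMv0
      (fun p => hMv p τ hτb') j k t
  have hD : Fc (DF c hc (fun k => H356R3.NS.fc (v τ) k) dA.sum χ g τ) (bs (DF c hc (fun k => H356R3.NS.fc (v τ) k) dA.sum χ g τ)) R := by
    refine ⟨fun k => ?_, bs_sum hDu, bs_ge hDu, fun k t ht => ?_, fun t => ?_⟩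
    · exact continuous_pi fun i => (DF_TT hc hg hτ.1 hR.le (hτR.trans_lt hb'T) hχ hχs dA.mean hDv 0 i).2 k
    · unfold DF
      rw [hχ0 t (by rw [abs_of_nonneg (by linarith)]; linarith), zero_smul]
    · unfold DF EF FW
      rw [if_pos rfl, Bt_0, X0_apply, dA.mean]
      simp
  have hdE : ‖dE hc hR.le hD‖ ≤ Real.exp (c / 2 * R₀) * R * B₁ := by
    refine (dE_norm hc hR.le hD).trans ?_
    have h1 := bs_tsum hDu
    have h2 : Real.exp (c / 2 * R) ≤ Real.exp (c / 2 * R₀) := Real.exp_le_exp.2 (mul_le_mul_of_nonneg_left hRR (by positivity))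
    have h3 : 0 ≤ ∑' k, bs (DF c hc (fun k => H356R3.NS.fc (v τ) k) dA.sum χ g τ) k := tsum_nonneg (bs_nonneg hDu)
    gcongr
  have hLd : L * ‖dE hc hR.le hD‖ ≤ omg / (1 + Λ) ^ m := by
    have hp : 0 < (1 + Λ) ^ m := by positivity
    rw [le_div_iff₀ hp]
    calc L * ‖dE hc hR.le hD‖ * (1 + Λ) ^ m ≤ L * (Real.exp (c / 2 * R₀) * R * B₁) * (1 + Λ) ^ m := by gcongr
      _ = (L * Real.exp (c / 2 * R₀) * B₁ * (1 + Λ) ^ m) * R := by ring
      _ ≤ Q * R := mul_le_mul_of_nonneg_right (by linarith) hR.le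
      _ ≤ omg := hRQ
  have hp1 : 1 ≤ (1 + Λ) ^ m := one_le_pow₀ (by linarith)
  have hLd1 : L * ‖dE hc hR.le hD‖ ≤ 1 := hLd.trans ((div_le_self hom0.le hp1).trans hom1)
  have hz0n : ‖z0 hc (fun k => H356R3.NS.fc (v τ) k) dA.sum‖ ≤ Mv 0 := (z0_norm hc).trans hsum
  obtain ⟨z, hz, hzn⟩ := hL (z0 hc (fun k => H356R3.NS.fc (v τ) k) dA.sum)
    (Phi hc (z0 hc (fun k => H356R3.NS.fc (v τ) k) dA.sum) + dE hc hR.le hD) hz0n (by rw [add_sub_cancel_left]; exact hLd1)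
  rw [add_sub_cancel_left] at hzn
  have hSl : Sl c hc (fun k => H356R3.NS.fc (v τ) k) dA.sum hR.le hD z := hz
  have hzG : ‖z‖ ≤ Mv 0 + 1 := by
    calc ‖z‖ = ‖(z - z0 hc (fun k => H356R3.NS.fc (v τ) k) dA.sum) + z0 hc (fun k => H356R3.NS.fc (v τ) k) dA.sum‖ := by rw [sub_add_cancel]
      _ ≤ _ := (norm_add_le _ _).trans (by linarith)
  have hDb : ∀ j k, nk k ^ j * bs (DF c hc (fun k => H356R3.NS.fc (v τ) k) dA.sum χ g τ) k ≤ MD j := bs_dec' hDu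
  obtain ⟨U, P, hUP, hUf⟩ := loc_phys hc hcν hA hg hgm hτ.1 hR.le (hτR.trans_lt hb'T) hχ hχs hχ1 hDv hDb hSl
  refine ⟨U, P, hUP, fun t ht => ?_⟩
  have hEle : Real.exp (c / 2 * R) * R ≤ E := by
    rw [hE]
    exact mul_le_mul (Real.exp_le_exp.2 (mul_le_mul_of_nonneg_left hRR (by positivity))) hRR hR.le (Real.exp_pos _).le
  have hdec := Sl_dec hc hSl hEle (G := Mv 0 + 1) (hsum.trans (by linarith)) (fun t => (z_G z t).trans hzG) hDv hDb (m + 5)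
  have hdec' : ∀ k t, nk k ^ (m + 5) * ‖z k t‖ ≤ A₁ := fun k t => (hdec k t).trans (le_abs_self _)
  have hterm := close_term hc (hv := dA.sum) dA.mean (Sl_zero hc hSl dA.mean) hΛ1 hA₁0 hm5 hdec' (hDv (m + 5)) ht
  have rm := real_Wm (hMv0 m) (hMv m τ hτb')
  set zd : EE := z - z0 hc (fun k => H356R3.NS.fc (v τ) k) dA.sum with hzd
  have s1 : Summable fun k => (1 + Λ) ^ m * ‖zd k t‖ := (z_summ zd t).mul_left _
  have s2 : Summable fun k : K => 2 ^ m * (A₁ + Mv (m + 5)) / Λ * (if k = 0 then (0 : ℝ) else 1 / nk k ^ 4) := summable_nk4.mul_left _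
  have s3 : Summable fun k => c * (R / 4) * ((1 + nk k) ^ m * ‖H356R3.NS.fc (v τ) k‖) := rm.1.mul_left _
  have hfc : ∀ k, H356R3.NS.fc (fun x => U t x - v τ x) k = XX c z k t - H356R3.NS.fc (v τ) k := fun k => by
    rw [fc_sub (hUP.fu t ht.1).sp hA.sp, hUf t ht.1 k]
  refine Wm_le_real ((s1.add s2).add s3) (fun k => by rw [hfc]; exact hterm k) ?_
  rw [(s1.add s2).tsum_add s3, s1.tsum_add s2, tsum_mul_left, tsum_mul_left, tsum_mul_left]
  have t1 : (1 + Λ) ^ m * ∑' k, ‖zd k t‖ ≤ w / 3 := by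
    have h1 : ∑' k, ‖zd k t‖ ≤ omg / (1 + Λ) ^ m := (z_G zd t).trans (hzn.trans hLd)
    have hp : 0 < (1 + Λ) ^ m := by positivity
    calc (1 + Λ) ^ m * ∑' k, ‖zd k t‖ ≤ (1 + Λ) ^ m * (omg / (1 + Λ) ^ m) := mul_le_mul_of_nonneg_left h1 hp.le
      _ = omg := by field_simp
      _ ≤ w / 3 := hom2
  have t3 : c * (R / 4) * ∑' k, (1 + nk k) ^ m * ‖H356R3.NS.fc (v τ) k‖ ≤ w / 3 := by
    calc c * (R / 4) * ∑' k, (1 + nk k) ^ m * ‖H356R3.NS.fc (v τ) k‖ ≤ c * (R / 4) * Mv m := mul_le_mul_of_nonneg_left rm.2 (by positivity)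
      _ ≤ (c * Mv m) * R := by nlinarith
      _ ≤ Q * R := mul_le_mul_of_nonneg_right (by linarith) hR.le
      _ ≤ w / 3 := hRQ.trans hom2
  have t2 : 2 ^ m * (A₁ + Mv (m + 5)) / Λ * ∑' k : K, (if k = 0 then (0 : ℝ) else 1 / nk k ^ 4) ≤ w / 3 := hΛ
  linarith

end Pool.Agent.U162.SF
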