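import Pool.Agent.U162.LX.A8
import Pool.Agent.U162.SF.Px2

/-!
Paths with exactly the given force in the middle of the interval
-/

open MeasureTheory Set Filter Topology
open scoped ENNReal NNReal ContDiff

namespace Pool.Agent.U162.SF

open Pool.Agent.H356R3.NS Pool.Agent.U162.TS Pool.Agent.U162.GE Pool.Agent.U162.TS.EL Pool.Agent.U162.TS.VF Pool.Agent.U162.TS.Ph Pool.Agent.U162.PL Pool.Agent.U162.MU Pool.Agent.U162.LX

variable {T ν : ℝ} {g : ℝ → R3 → R3} {a b h ρ : ℝ}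

lemma comp_sm {T' : ℝ} {q : ℝ → R3 → ℝ} (hq : Sm T' q) {σ : ℝ → ℝ} (hσ : ContDiff ℝ ∞ σ) (hr : ∀ t, σ t ∈ Ico 0 T') :
    ContDiff ℝ ∞ fun z : ℝ × R3 => q (σ z.1) z.2 := by
  rw [← contDiffOn_univ]
  exact hq.smooth.comp (f := fun z : ℝ × R3 => ((σ z.1, z.2) : ℝ × R3)) ((hσ.comp contDiff_fst).prodMk contDiff_snd).contDiffOn
    fun z _ => ⟨hr z.1, trivial⟩

lemma ta_rng (hρ : 0 < ρ) (hab : 4 * ρ < b - a) (t : ℝ) : ta a b ρ t ∈ Icc 0 (b - a) := by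
  rcases le_or_gt t (a + ρ) with h1 | h1
  · rw [ta_left hρ hab h1]; exact ⟨le_rfl, by linarith⟩
  rcases le_or_gt (b - ρ) t with h2 | h2
  · rw [ta_right hρ hab h2]; exact ⟨by linarith, le_rfl⟩
  unfold ta
  have n0 := th_nonneg (a + ρ) (a + 2 * ρ) t
  have n1 := th_le_one (a + ρ) (a + 2 * ρ) t
  have m0 := th_nonneg (b - 2 * ρ) (b - ρ) t
  have m1 := th_le_one (b - 2 * ρ) (b - ρ) t
  constructor
  · have : 0 ≤ t - a := by linarith
    have : 0 ≤ b - t := by linarith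
    positivity
  · nlinarith

lemma ta_mid (hρ : 0 < ρ) {t : ℝ} (h1 : a + 2 * ρ ≤ t) (h2 : t ≤ b - 2 * ρ) : ta a b ρ t = t - a := by
  unfold ta
  rw [th_right (by linarith) h1, th_left (by linarith) h2]
  ring

variable {A : R3 → R3} {U : ℝ → R3 → R3} {P : ℝ → R3 → ℝ}

lemma Lcl.smU (hL : Lcl ν h g a A U P) (T' : ℝ) (i : Fin 3) : Sm T' fun t x => U t x i :=
  ⟨(contDiffOn_pi.1 hL.su i).mono (prod_mono (fun _ hs => hs.1) subset_rfl), fun t ht => (hL.fu t ht.1).sp i⟩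

lemma Lcl.smP (hL : Lcl ν h g a A U P) (T' : ℝ) : Sm T' P where
  smooth := hL.sp.mono (prod_mono (fun _ hs => hs.1) subset_rfl)
  sp := fun t ht => by
    refine ⟨?_, fun j x => hL.pp t ht.1 x j⟩
    rw [← contDiffOn_univ]
    exact hL.sp.comp (f := fun x : R3 => ((t, x) : ℝ × R3)) (contDiff_const.prodMk contDiff_id).contDiffOn fun x _ => ⟨ht.1, trivial⟩

lemma Lcl.smR (hL : Lcl ν h g a A U P) (T' : ℝ) (i : Fin 3) : Sm T' fun t x => Rs ν (U t) x i := by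
  have sv := hL.smU T'
  have sa : Sm T' fun t x => adv (U t) x i :=
    Sm.sum (h := fun j t x => U t x j * H459R3.NS.pd j (fun y => U t y i) x) fun j => (sv j).mul ((sv i).pd j)
  have sl : Sm T' fun t x => Ls ν (U t) x i :=
    (Sm.sum (h := fun j t x => H459R3.NS.pd j (H459R3.NS.pd j (fun y => U t y i)) x) fun j => ((sv i).pd j).pd j).cmul (-ν)
  exact ⟨sa.smooth.add sl.smooth, fun t ht => (sa.sp t ht).add (sl.sp t ht)⟩

/-- the force of the reparametrised solution -/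
noncomputable def xf (ν : ℝ) (σ : ℝ → ℝ) (g : ℝ → R3 → R3) (a : ℝ) (U : ℝ → R3 → R3) (t : ℝ) (x : R3) : R3 :=
  deriv σ t • (g (a + σ t) x - Rs ν (U (σ t)) x) + Rs ν (U (σ t)) x

theorem x_pth (hL : Lcl ν h g a A U P) (hg : ∀ i, Sm T fun t x => g t x i) (hgm : ∀ t ∈ Ico 0 T, H356R3.NS.fc (g t) 0 = 0) {σ : ℝ → ℝ}
    (hσ : ContDiff ℝ ∞ σ) (h0 : ∀ t, σ t ∈ Icc 0 h) (ha : 0 ≤ a) (hT : a + h < T) :
    PthOn ν univ (xf ν σ g a U) (fun t => U (σ t)) (fun t x => deriv σ t * P (σ t) x) := by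
  have hr : ∀ t, σ t ∈ Ico 0 (h + 1) := fun t => ⟨(h0 t).1, by linarith [(h0 t).2]⟩
  have hr2 : ∀ t, a + σ t ∈ Ico 0 T := fun t => ⟨by linarith [(h0 t).1], by linarith [(h0 t).2]⟩
  have hσ' : ContDiff ℝ ∞ (deriv σ) := (contDiff_infty_iff_deriv.1 hσ).2
  have sU : ContDiff ℝ ∞ fun z : ℝ × R3 => U (σ z.1) z.2 := contDiff_pi.2 fun i => comp_sm (hL.smU (h + 1) i) hσ hr
  have sP : ContDiff ℝ ∞ fun z : ℝ × R3 => P (σ z.1) z.2 := comp_sm (hL.smP (h + 1)) hσ hr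
  have sR : ContDiff ℝ ∞ fun z : ℝ × R3 => Rs ν (U (σ z.1)) z.2 := contDiff_pi.2 fun i => comp_sm (hL.smR (h + 1) i) hσ hr
  have sg : ContDiff ℝ ∞ fun z : ℝ × R3 => g (a + σ z.1) z.2 := contDiff_pi.2 fun i => comp_sm (σ := fun t => a + σ t) (hg i) (contDiff_const.add hσ) hr2
  have fU : ∀ t, Field (U (σ t)) := fun t => hL.fu _ (h0 t).1
  have gs : ∀ t, SPF (g (a + σ t)) := fun t i => (hg i).sp _ (hr2 t)
  have Rsp : ∀ t, SPF (Rs ν (U (σ t))) := fun t => Rs_spf (fU t).sp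
  refine ⟨fun t _ x => sU.contDiffAt, fun t _ x => ?_, fun t _ x => ((hσ'.comp contDiff_fst).mul sP).contDiffAt, fun t _ => (fU t).periodic,
    fun t _ x j => ?_, fun t _ x j => ?_, fun t _ x i => ?_, fun t _ => (fU t).divFree, fun t _ => (fU t).dta.mean, fun t _ => ?_⟩
  · exact (((hσ'.comp contDiff_fst).smul (sg.sub sR)).add sR).contDiffAt
  · have e1 : g (a + σ t) (x + Pi.single j 1) = g (a + σ t) x := funext fun i => (gs t i).per j x
    have e2 : Rs ν (U (σ t)) (x + Pi.single j 1) = Rs ν (U (σ t)) x := funext fun i => (Rsp t i).per j x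
    unfold xf
    rw [e1, e2]
  · show deriv σ t * P (σ t) (x + Pi.single j 1) = _
    rw [hL.pp _ (h0 t).1]
  · have h1 := hL.mo (σ t) (h0 t) x i
    have h2 : HasDerivAt σ (deriv σ t) t := (hσ.differentiable (by simp) t).hasDerivAt
    have h3 : HasDerivAt (fun s => U (σ s) x i) (deriv σ t • (g (a + σ t) x i - Rs ν (U (σ t)) x i - pd i (P (σ t)) x)) t :=
      HasDerivWithinAt.scomp_hasDerivAt t h1 h2 fun s => (h0 s).1
    have e2 : pd i (fun y => deriv σ t * P (σ t) y) x = deriv σ t * pd i (P (σ t)) x :=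
      pd_smul' ((hL.smP (h + 1)).sp _ (hr t)) _ i x
    rw [h3.deriv, e2]
    show _ = ν * ∑ j, pd j (pd j fun y => U (σ t) y i) x - _
      + (deriv σ t * (g (a + σ t) x i - Rs ν (U (σ t)) x i) + (∑ j, U (σ t) x j * pd j (fun y => U (σ t) y i) x
        + (-ν) * ∑ j, pd j (pd j fun y => U (σ t) y i) x))
    rw [smul_eq_mul]
    ring
  · show H356R3.NS.fc (fun x => deriv σ t • (g (a + σ t) x - Rs ν (U (σ t)) x) + Rs ν (U (σ t)) x) 0 = 0
    have s1 : SPF fun x => g (a + σ t) x - Rs ν (U (σ t)) x := (gs t).sub (Rsp t)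
    rw [fc_add (s1.smul _) (Rsp t), fc_smul, fc_sub (gs t) (Rsp t), hgm _ (hr2 t), fc_Rs0 (fU t).sp (fU t).divFree]
    simp

/-- the size of the force -/
lemma xf_bd {s : ℝ} (hs : 1 ≤ s) {σ : ℝ → ℝ} {t M M' C' : ℝ} (hM : 0 ≤ M) (hM' : 0 ≤ M') (hC' : 0 ≤ C') (hgt : SPF (g t)) (hga : SPF (g (a + σ t)))
    (hU : SPF (U (σ t))) (hg1 : Wn (g t) ≤ ENNReal.ofReal M) (hg2 : Wn (g (a + σ t)) ≤ ENNReal.ofReal M) (hR : Wn (Rs ν (U (σ t))) ≤ ENNReal.ofReal M')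
    (hσ : |deriv σ t| ≤ C') : Nc s (fun x => xf ν σ g a U t x - g t x) ≤ ENNReal.ofReal (C' * (M + M') + M' + M) := by
  have Rsp : SPF (Rs ν (U (σ t))) := Rs_spf hU
  have s1 : SPF fun x => g (a + σ t) x - Rs ν (U (σ t)) x := hga.sub Rsp
  have s2 : SPF (xf ν σ g a U t) := (s1.smul _).add Rsp
  refine (Nc_sub hs s2 hgt).trans ?_
  have h1 : Nc s (xf ν σ g a U t) ≤ ENNReal.ofReal (C' * (M + M') + M') := by
    refine (Nc_add hs (s1.smul _) Rsp).trans ?_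
    rw [ENNReal.ofReal_add (by positivity) hM']
    refine add_le_add ?_ ((Nc_le_Wn hs _).trans hR)
    rw [Nc_smul (by linarith), ENNReal.ofReal_mul hC']
    refine mul_le_mul' (ENNReal.ofReal_le_ofReal hσ) ?_
    refine (Nc_le_Wn hs _).trans ((Wn_sub hga Rsp).trans ?_)
    rw [ENNReal.ofReal_add hM hM']
    exact add_le_add hg2 hR
  rw [ENNReal.ofReal_add (by positivity) hM]
  exact add_le_add h1 ((Nc_le_Wn hs _).trans hg1)

end Pool.Agent.U162.SF
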