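import Pool.Agent.U162.LX.C10

/-!
Pieces of paths: given intervals, with the given force outside finitely many short intervals
-/

open MeasureTheory Set Filter Topology
open scoped ENNReal NNReal ContDiff

namespace Pool.Agent.U162.SF

open Pool.Agent.H356R3.NS Pool.Agent.U162.TS Pool.Agent.U162.GE Pool.Agent.U162.TS.EL Pool.Agent.U162.TS.VF Pool.Agent.U162.TS.Ph Pool.Agent.U162.PL Pool.Agent.U162.MU Pool.Agent.U162.LX

variable {ν : ℝ} {m : ℕ} {g v : ℝ → R3 → R3} {α β M a b e e' δ s w r : ℝ}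

/-- a short interval -/
theorem Pq_sub (hν : 0 < ν) (hs : 2 < s) (hr0 : 0 < r) (hr2 : r < 2) (hG : Gw ν g v m a b M) {T h : ℝ} (hab : a < b) (hl : b - a ≤ h)
    (hg : ∀ i, Sm T fun t x => g t x i) (hgm : ∀ t ∈ Ico 0 T, H356R3.NS.fc (g t) 0 = 0) (ha0 : 0 ≤ a) (hT : a + h < T)
    {U : ℝ → R3 → R3} {P : ℝ → R3 → ℝ} (hL : Lcl ν h g a (v a) U P) (hw : 0 ≤ w) (hw1 : w ≤ 1)
    (hUw : ∀ t ∈ Icc 0 h, Wm (m + 2) (fun x => U t x - v a x) ≤ ENNReal.ofReal w)
    (hvw : ∀ t ∈ Icc a b, Wm m (fun x => v a x - v t x) ≤ ENNReal.ofReal w) (he : 2 * w ≤ e) (hδ : 0 < δ)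
    (hee : 1501 * e + δ ≤ e') (hβ : 0 < β) : Pq ν s r g v m e e' a b ((b - a) * e ^ r + δ) β (v a) (v b) := by
  have hM := hG.M0
  have hKX : 0 ≤ KX ν r M := KX_nonneg hM
  have hs1 : 1 ≤ s := by linarith
  have he0 : 0 ≤ e := by linarith
  have her : 0 ≤ e ^ r := by positivity
  obtain ⟨ρ, hρ, hρl, hρβ, hρM⟩ : ∃ ρ : ℝ, 0 < ρ ∧ 2 * ρ ≤ b - a ∧ ρ ≤ β / 2 ∧ KX ν r M * ρ ≤ δ / 4 := by
    refine ⟨min ((b - a) / 2) (min (β / 2) (δ / (4 * (KX ν r M + 1)))), lt_min (by linarith) (lt_min (by linarith) (by positivity)), ?_, ?_, ?_⟩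
    · have := min_le_left ((b - a) / 2) (min (β / 2) (δ / (4 * (KX ν r M + 1)))); linarith
    · exact (min_le_right _ _).trans (min_le_left _ _)
    · have h1 : min ((b - a) / 2) (min (β / 2) (δ / (4 * (KX ν r M + 1)))) ≤ δ / (4 * (KX ν r M + 1)) := (min_le_right _ _).trans (min_le_right _ _)
      calc KX ν r M * min ((b - a) / 2) (min (β / 2) (δ / (4 * (KX ν r M + 1)))) ≤ KX ν r M * (δ / (4 * (KX ν r M + 1))) := by gcongr
        _ = KX ν r M / (KX ν r M + 1) * (δ / 4) := by field_simp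
        _ ≤ 1 * (δ / 4) := by
          refine mul_le_mul_of_nonneg_right ?_ (by positivity)
          rw [div_le_one (by positivity)]; linarith
        _ = δ / 4 := one_mul _
  have ha : a ∈ Icc a b := ⟨le_rfl, hab.le⟩
  have hb : b ∈ Icc a b := ⟨hab.le, le_rfl⟩
  have hee' : e ≤ e' := by linarith
  have p1 : Pq ν s r g v m e e' a (b - ρ) ((b - ρ - a) * e ^ r + δ / 4) (β / 2) (v a) (U (b - ρ - a)) :=
    Pq_ex hr0 hs1 (hG.mono le_rfl (by linarith)) (by linarith) (by linarith) hg hgm ha0 hT hL hw hw1 hUw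
      (fun t ht => hvw t ⟨ht.1, by linarith [ht.2]⟩) he hee' (by positivity) (by positivity)
  have fva := hG.fv a ha
  have fvb := hG.fv b hb
  have hr : b - ρ - a ∈ Icc 0 h := ⟨by linarith, by linarith⟩
  have hm : Field (U (b - ρ - a)) := hL.fu _ hr.1
  have hmv : ∀ t ∈ Icc a b, Wn (fun x => U (b - ρ - a) x - v t x) ≤ ENNReal.ofReal e := by
    intro t ht
    have e1 : (fun x => U (b - ρ - a) x - v t x) = fun x => (U (b - ρ - a) x - v a x) + (v a x - v t x) := by funext x; abel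
    rw [e1]
    refine (Wn_add (SPF.sub hm.sp fva.sp) (SPF.sub fva.sp (hG.fv t ht).sp)).trans ?_
    refine (add_le_add ((Wn_le_Wm _ _).trans (hUw _ hr)) ((Wn_le_Wm m _).trans (hvw t ht))).trans ?_
    rw [← ENNReal.ofReal_add hw hw]
    exact ENNReal.ofReal_le_ofReal (by linarith)
  have p2 : Pq ν s r g v m e e' (b - ρ) b (5 * (δ / 20) + KX ν r M * (b - (b - ρ))) (b - (b - ρ)) (U (b - ρ - a)) (v b) := by
    refine Pq_fast hν hs hr0 hr2 (hG.mono (by linarith) le_rfl) (by linarith) (by positivity) hm fvb he0 ?_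
      (fun t ht => hmv t ⟨by linarith [ht.1], ht.2⟩) ((Wm_mono (by omega) _).trans (hG.bv b hb)) (by linarith)
    rw [Wn_comm]
    exact hmv b hb
  have e2 : b - (b - ρ) = ρ := by ring
  rw [e2] at p2
  have h1 : 0 ≤ b - ρ - a := by linarith
  have hm0 : 0 ≤ (b - ρ - a) * e ^ r := by positivity
  have hMρ : 0 ≤ KX ν r M * ρ := by positivity
  have p := Pq_concat p1 p2 (by linarith) (by linarith) (by positivity) (by positivity) (by positivity) hρ.le
  refine p.le ?_ (by linarith)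
  have h3 : b - ρ - a ≤ b - a := by linarith
  have h4 : (b - ρ - a) * e ^ r ≤ (b - a) * e ^ r := by gcongr
  linarith

/-- many short intervals -/
theorem Pq_many (hν : 0 < ν) (hs : 2 < s) (hr0 : 0 < r) (hr2 : r < 2) {α₀ β₀ r' l T h : ℝ} (hG : Gw ν g v m α₀ β₀ M) (hα : 0 ≤ α₀)
    (hg : ∀ i, Sm T fun t x => g t x i) (hgm : ∀ t ∈ Ico 0 T, H356R3.NS.fc (g t) 0 = 0)
    (hloc : ∀ τ ∈ Icc α₀ β₀, τ + h < T ∧ ∃ U P, Lcl ν h g τ (v τ) U P ∧ ∀ t ∈ Icc 0 h, Wm (m + 2) (fun x => U t x - v τ x) ≤ ENNReal.ofReal w)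
    (hl0 : 0 < l) (hlh : l ≤ h) (hlr : l ≤ r') (hw : 0 ≤ w) (hw1 : w ≤ 1)
    (hvw : ∀ t ∈ Icc α₀ β₀, ∀ t' ∈ Icc α₀ β₀, |t - t'| ≤ r' → Wm m (fun x => v t x - v t' x) ≤ ENNReal.ofReal w)
    (he : 2 * w ≤ e) (hδ : 0 < δ) (hee : 1501 * e + δ ≤ e') (hβ : 0 < β) (n : ℕ) :
    ∀ c : ℝ, α₀ ≤ c → c + (n + 1) * l ≤ β₀ →
      Pq ν s r g v m e e' c (c + (n + 1) * l) ((n + 1) * (l * e ^ r + δ)) ((n + 1) * β) (v c) (v (c + (n + 1) * l)) := by
  have he0 : 0 ≤ e := by linarith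
  have base : ∀ c : ℝ, α₀ ≤ c → c + l ≤ β₀ → Pq ν s r g v m e e' c (c + l) (l * e ^ r + δ) β (v c) (v (c + l)) := by
    intro c h1 h2
    have hmem : ∀ t ∈ Icc c (c + l), t ∈ Icc α₀ β₀ := fun t ht => ⟨h1.trans ht.1, ht.2.trans h2⟩
    have hc : c ∈ Icc c (c + l) := ⟨le_rfl, by linarith⟩
    have hab : ∀ t ∈ Icc c (c + l), |c - t| ≤ r' := fun t ht => by
      rw [abs_le]; constructor <;> linarith [ht.1, ht.2]
    obtain ⟨hcT, U, P, hL, hU⟩ := hloc c (hmem c hc)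
    have h := Pq_sub hν hs hr0 hr2 (e := e) (hG.mono h1 h2) (by linarith) (by linarith) hg hgm (hα.trans h1) hcT hL hw hw1 hU
      (fun t ht => hvw c (hmem c hc) t (hmem t ht) (hab t ht)) he hδ hee hβ
    have e0 : c + l - c = l := by ring
    rw [e0] at h
    exact h
  have hc0 : 0 ≤ l * e ^ r + δ := by positivity
  induction n with
  | zero =>
    intro c h1 h2
    have h := base c h1 (by simpa using h2)
    simpa using h
  | succ n ih =>
    intro c h1 h2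
    push_cast at h2
    have e0 : c + ((n : ℝ) + 1 + 1) * l = c + ((n : ℝ) + 1) * l + l := by ring
    have q1 := ih c h1 (by linarith)
    have hp : 0 < ((n : ℝ) + 1) * l := by positivity
    have q2 := base (c + ((n : ℝ) + 1) * l) (by linarith) (by linarith)
    have q := Pq_concat q1 q2 (by linarith) (by linarith) (by positivity) hc0 (by positivity) hβ.le
    push_cast
    rw [e0]
    refine q.le (le_of_eq ?_) (le_of_eq ?_)
    · ring
    · ring

/-- a given interval -/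
theorem Pq_all (hν : 0 < ν) (hs : 2 < s) (hr0 : 0 < r) (hr2 : r < 2) (hG : Gw ν g v m a b M) (hab : a < b) {T : ℝ} (ha0 : 0 ≤ a) (hbT : b < T)
    (hg : ∀ i, Sm T fun t x => g t x i) (hgm : ∀ t ∈ Ico 0 T, H356R3.NS.fc (g t) 0 = 0)
    (hv : ∀ i, Sm T fun t x => v t x i) (hvf : ∀ t ∈ Ico 0 T, Field (v t))
    (hvw : ∀ w : ℝ, 0 < w → ∃ r : ℝ, 0 < r ∧ ∀ t ∈ Icc a b, ∀ t' ∈ Icc a b, |t - t'| ≤ r → Wm m (fun x => v t x - v t' x) ≤ ENNReal.ofReal w)
    (he : 0 < e) (he' : 0 < e') (hδ : 0 < δ) (hβ : 0 < β) : Pq ν s r g v m e e' a b δ β (v a) (v b) := by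
  have hM := hG.M0
  have hL : 0 < b - a := by linarith
  set e₁ := min (min e (e' / 3002)) ((δ / (5 * (b - a))) ^ (1 / r)) with he₁
  have he₁0 : 0 < e₁ := lt_min (lt_min he (by positivity)) (by positivity)
  have he₁e : e₁ ≤ e := (min_le_left _ _).trans (min_le_left _ _)
  have he₁e' : e₁ ≤ e' / 3002 := (min_le_left _ _).trans (min_le_right _ _)
  have he₁r : e₁ ^ r ≤ δ / (5 * (b - a)) := by
    have h1 : e₁ ≤ (δ / (5 * (b - a))) ^ (1 / r) := min_le_right _ _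
    calc e₁ ^ r ≤ ((δ / (5 * (b - a))) ^ (1 / r)) ^ r := Real.rpow_le_rpow he₁0.le h1 hr0.le
      _ = δ / (5 * (b - a)) := by
        rw [← Real.rpow_mul (by positivity), one_div_mul_cancel hr0.ne', Real.rpow_one]
  set w := min (e₁ / 2) 1 with hw
  have hw0 : 0 < w := lt_min (by positivity) one_pos
  have hwe : w ≤ e₁ / 2 := min_le_left _ _
  have hw1 : w ≤ 1 := min_le_right _ _
  obtain ⟨h, hh, hloc⟩ := locsol hν hg hgm hv hvf hbT (m + 2) hw0
  obtain ⟨r₂, hr₂, hvr⟩ := hvw w hw0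
  obtain ⟨n, hn⟩ := exists_nat_gt ((b - a) / min h r₂ + δ / e')
  have hr : 0 < min h r₂ := lt_min hh hr₂
  have q1 : 0 ≤ (b - a) / min h r₂ := by positivity
  have q5 : 0 ≤ δ / e' := by positivity
  have hn1 : (b - a) / min h r₂ < n := by linarith
  have hn5 : δ / e' < n := by linarith
  have hn0 : (0 : ℝ) < n + 1 := by positivity
  set l := (b - a) / (n + 1) with hl
  have hl0 : 0 < l := by positivity
  have hnl : ((n : ℝ) + 1) * l = b - a := by rw [hl]; field_simp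
  have hlr : l ≤ min h r₂ := by
    rw [hl, div_le_iff₀ hn0]
    rw [div_lt_iff₀ hr] at hn1
    nlinarith
  have hδ' : 1501 * e₁ + δ / (5 * (n + 1)) ≤ e' := by
    have h1 : δ / (5 * (n + 1)) ≤ e' / 2 := by
      rw [div_lt_iff₀ he'] at hn5
      rw [div_le_div_iff₀ (by positivity) (by norm_num)]
      nlinarith
    linarith
  have hp := Pq_many hν hs hr0 hr2 hG ha0 hg hgm (w := w) (fun τ hτ => hloc τ ⟨ha0.trans hτ.1, hτ.2⟩) hl0 (hlr.trans (min_le_left _ _))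
    (hlr.trans (min_le_right _ _)) hw0.le hw1 hvr (e := e₁) (e' := e') (by linarith) (δ := δ / (5 * (n + 1))) (by positivity) hδ'
    (β := β / (n + 1)) (by positivity) n a le_rfl (by rw [hnl]; linarith)
  rw [hnl] at hp
  have e0 : a + (b - a) = b := by ring
  rw [e0] at hp
  refine (hp.mono_e he₁e).le ?_ (le_of_eq (by field_simp))
  have h1 : ((n : ℝ) + 1) * (l * e₁ ^ r + δ / (5 * (n + 1))) = (b - a) * e₁ ^ r + δ / 5 := by
    have e1 : ((n : ℝ) + 1) * (l * e₁ ^ r + δ / (5 * (n + 1)))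
        = (((n : ℝ) + 1) * l) * e₁ ^ r + ((n : ℝ) + 1) * (δ / (5 * (n + 1))) := by ring
    rw [e1, hnl]
    have e3 : ((n : ℝ) + 1) * (δ / (5 * (n + 1))) = δ / 5 := by field_simp
    rw [e3]
  have h4 : (b - a) * e₁ ^ r ≤ δ / 5 := by
    calc (b - a) * e₁ ^ r ≤ (b - a) * (δ / (5 * (b - a))) := mul_le_mul_of_nonneg_left he₁r hL.le
      _ = δ / 5 := by field_simp
  rw [h1]
  linarith

end Pool.Agent.U162.SF
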