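import Pool.Agent.U162.LX.C11

/-!
Following a given velocity by solutions with forces close to a given force: closeness in the critical norms and,
outside finitely many short intervals, equality of the forces and closeness of the velocities with all derivatives
-/

open MeasureTheory Set Filter Topology
open scoped ENNReal NNReal ContDiff

namespace Pool.Agent.U162.SF

open Pool.Agent.H356R3.NS Pool.Agent.U162.TS Pool.Agent.U162.GE Pool.Agent.U162.TS.EL Pool.Agent.U162.TS.VF Pool.Agent.U162.TS.Ph Pool.Agent.U162.PL Pool.Agent.U162.MU Pool.Agent.U162.LX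

variable {ν : ℝ} {g v : ℝ → R3 → R3}

/-- a piece which is trivial for trivial data -/
theorem zpiece (hν : 0 < ν) {m : ℕ} {a b M e e' δ s r β : ℝ} (hs : 2 < s) (hr0 : 0 < r) (hr2 : r < 2) (hG : Gw ν g v m a b M) (hab : a < b)
    {T : ℝ} (ha0 : 0 ≤ a) (hbT : b < T) (hg : ∀ i, Sm T fun t x => g t x i) (hgm : ∀ t ∈ Ico 0 T, H356R3.NS.fc (g t) 0 = 0)
    (hv : ∀ i, Sm T fun t x => v t x i) (hvf : ∀ t ∈ Ico 0 T, Field (v t))
    (hvw : ∀ w : ℝ, 0 < w → ∃ r : ℝ, 0 < r ∧ ∀ t ∈ Icc a b, ∀ t' ∈ Icc a b, |t - t'| ≤ r → Wm m (fun x => v t x - v t' x) ≤ ENNReal.ofReal w)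
    (he : 0 < e) (he' : 0 < e') (hδ : 0 < δ) (hβ : 0 < β) :
    ∃ (η : ℝ) (f u : ℝ → R3 → R3) (p : ℝ → R3 → ℝ), 0 < η ∧ PthOn ν univ f u p ∧
    (∀ t ≤ a + η, f t = Rs ν (v a) ∧ u t = v a ∧ p t = fun _ => 0) ∧
    (∀ t, b - η ≤ t → f t = Rs ν (v b) ∧ u t = v b ∧ p t = fun _ => 0) ∧
    ∫⁻ t in Ioo a b, Nc s (fun x => f t x - g t x) ≤ ENNReal.ofReal δ ∧
    Off β a b (fun t => Wm m (fun x => u t x - v t x) ≤ ENNReal.ofReal e ∧ f t = g t) ∧
    ∫⁻ t in Ioo a b, Wn (fun x => u t x - v t x) ^ r ≤ ENNReal.ofReal δ ∧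
    (∀ t ∈ Icc a b, Nc s (fun x => u t x - v t x) ≤ ENNReal.ofReal e') ∧
    ((∀ t ∈ Icc a b, v t = 0 ∧ g t = 0) → ∀ t, f t = 0 ∧ u t = 0) := by
  by_cases h : ∀ t ∈ Icc a b, v t = 0 ∧ g t = 0
  · have ha : v a = 0 := (h a ⟨le_rfl, hab.le⟩).1
    have hb : v b = 0 := (h b ⟨hab.le, le_rfl⟩).1
    have eR : Rs ν (0 : R3 → R3) = fun _ => 0 := Rs_zero
    have e1 : (fun x : R3 => (0 : R3 → R3) x - (0 : R3 → R3) x) = fun _ => 0 := by funext x; simp
    rw [ha, hb]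
    refine ⟨1, fun _ => Rs ν 0, fun _ => 0, fun _ _ => 0, one_pos, const_pth field_zero, fun t _ => ⟨rfl, rfl, rfl⟩,
      fun t _ => ⟨rfl, rfl, rfl⟩, ?_, ?_, ?_, fun t ht => ?_, fun _ t => ⟨eR, rfl⟩⟩
    · refine le_trans (setLIntegral_mono' measurableSet_Ioo (g := fun _ => 0) fun t ht => ?_) (by simp)
      rw [eR, (h t ⟨ht.1.le, ht.2.le⟩).2]
      have e1 : (fun x : R3 => (0 : R3) - (0 : R3 → R3) x) = fun _ => 0 := by funext x; simp
      rw [e1, Nc_zero (by linarith)]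
    · refine ⟨∅, by simp, by simpa using hβ.le, fun t ht _ => ⟨?_, ?_⟩⟩
      · show Wm m (fun x => (0 : R3 → R3) x - v t x) ≤ _
        rw [(h t ht).1, e1, Wm_null]
        exact bot_le
      · show Rs ν (0 : R3 → R3) = g t
        rw [eR, (h t ht).2]
        rfl
    · refine le_trans (setLIntegral_mono' measurableSet_Ioo (g := fun _ => 0) fun t ht => ?_) (by simp)
      rw [(h t ⟨ht.1.le, ht.2.le⟩).1]
      show Wn (fun x : R3 => (0 : R3 → R3) x - (0 : R3 → R3) x) ^ r ≤ 0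
      rw [e1, Wn_null0, ENNReal.zero_rpow_of_pos hr0]
    · rw [(h t ht).1]
      show Nc s (fun x : R3 => (0 : R3 → R3) x - (0 : R3 → R3) x) ≤ _
      rw [e1, Nc_zero (by linarith)]
      exact bot_le
  · obtain ⟨η, f, u, p, h1, h2, h3, h4, h5, h6, h7, h8⟩ := Pq_all hν hs hr0 hr2 hG hab ha0 hbT hg hgm hv hvf hvw he he' hδ hβ
    exact ⟨η, f, u, p, h1, h2, h3, h4, h5, h6, h7, h8, fun a1 => absurd a1 h⟩

/-- following a given velocity -/
theorem flexH (hν : 0 < ν) {T : ℕ → ℝ} (hT : StrictMono T) (hT0 : T 0 = 0)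
    (hg : ContDiffOn ℝ ∞ (fun z : ℝ × R3 => g z.1 z.2) ({t | 0 ≤ t ∧ ∃ i, t < T i} ×ˢ univ))
    (hgp : ∀ t ∈ {t | 0 ≤ t ∧ ∃ i, t < T i}, SPF (g t)) (hgm : ∀ t ∈ {t | 0 ≤ t ∧ ∃ i, t < T i}, H356R3.NS.fc (g t) 0 = 0)
    (hv : ContDiffOn ℝ ∞ (fun z : ℝ × R3 => v z.1 z.2) ({t | 0 ≤ t ∧ ∃ i, t < T i} ×ˢ univ))
    (hvf : ∀ t ∈ {t | 0 ≤ t ∧ ∃ i, t < T i}, Field (v t)) (m : ℕ → ℕ) {s r ε : ℕ → ℝ} (hs : ∀ i, 2 < s i)
    (hr0 : ∀ i, 0 < r i) (hr2 : ∀ i, r i < 2) (hε : ∀ i, 0 < ε i) :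
    ∃ (f u : ℝ → R3 → R3) (p : ℝ → R3 → ℝ), PthOn ν {t | ∃ i, t < T i} f u p ∧ (∀ i, u (T i) = v (T i)) ∧ ∀ i,
      ∫⁻ t in Icc (T i) (T (i + 1)), Nc (s i) (fun x => f t x - g t x) ≤ ENNReal.ofReal (ε i) ∧
      (∀ t ∈ Icc (T i) (T (i + 1)), Nc (s i) (fun x => u t x - v t x) ≤ ENNReal.ofReal (ε i)) ∧
      ∫⁻ t in Icc (T i) (T (i + 1)), Wn (fun x => u t x - v t x) ^ r i ≤ ENNReal.ofReal (ε i) ∧
      Off (ε i) (T i) (T (i + 1)) (fun t => Wm (m i) (fun x => u t x - v t x) ≤ ENNReal.ofReal (ε i) ∧ f t = g t) ∧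
      ((∀ t ∈ Icc (T i) (T (i + 1)), v t = 0 ∧ g t = 0) → ∀ t ∈ Icc (T i) (T (i + 1)), f t = 0 ∧ u t = 0) := by
  have hTn : ∀ i, 0 ≤ T i := fun i => by rw [← hT0]; exact hT.monotone (Nat.zero_le i)
  have hsm := fun i : ℕ => by
    have hsub : Ico 0 (T (i + 2)) ⊆ {t | 0 ≤ t ∧ ∃ i, t < T i} := fun t ht => ⟨ht.1, i + 2, ht.2⟩
    exact gw_of_smooth ν (T := T (i + 2)) (b := T (i + 1)) (hg.mono (prod_mono hsub subset_rfl)) (fun t ht => hgp t (hsub ht))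
      (fun t ht => hgm t (hsub ht)) (hv.mono (prod_mono hsub subset_rfl)) (fun t ht => hvf t (hsub ht))
      (hT (Nat.lt_succ_self (i + 1))) (m i)
  have hsub : ∀ i, Ico 0 (T (i + 2)) ⊆ {t | 0 ≤ t ∧ ∃ i, t < T i} := fun i t ht => ⟨ht.1, i + 2, ht.2⟩
  have sg : ∀ i j, Sm (T (i + 2)) fun t x => g t x j := fun i j =>
    ⟨contDiffOn_pi.1 (hg.mono (prod_mono (hsub i) subset_rfl)) j, fun t ht => hgp t (hsub i ht) j⟩
  have sv : ∀ i j, Sm (T (i + 2)) fun t x => v t x j := fun i j =>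
    ⟨contDiffOn_pi.1 (hv.mono (prod_mono (hsub i) subset_rfl)) j, fun t ht => (hvf t (hsub i ht)).sp j⟩
  choose M hM using fun i => (hsm i).1
  have hmem : ∀ i, ∀ t ∈ Icc (T i) (T (i + 1)), t ∈ Icc 0 (T (i + 1)) := fun i t ht => ⟨(hTn i).trans ht.1, ht.2⟩
  have hstep := fun i => zpiece hν (hs i) (hr0 i) (hr2 i) ((hM i).mono (hTn i) le_rfl) (hT (Nat.lt_succ_self i)) (hTn i)
    (hT (Nat.lt_succ_self (i + 1))) (sg i) (fun t ht => hgm t (hsub i ht)) (sv i) (fun t ht => hvf t (hsub i ht))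
    (fun w hw => by
      obtain ⟨r, hr, h3⟩ := (hsm i).2.2 w hw
      exact ⟨r, hr, fun t ht t' ht' => h3 t (hmem i t ht) t' (hmem i t' ht')⟩) (hε i) (hε i) (hε i) (hε i)
  choose η f u p hη hP hl hr hi hvol hLr hcr hz using hstep
  have P := joinA hT hη hP (fun i t ht => hl i t ht) (fun i t ht => hr i t ht)
  have hend : ∀ i, u (idx T (T i)) (T i) = v (T i) := fun i => by
    have e : idx T (T i) = i := idx_eq hT le_rfl (hT (Nat.lt_succ_self i))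
    rw [e]
    exact (hl i (T i) (by linarith [hη i])).2.1
  have hzero : ∀ i, (fun x => u (idx T (T i)) (T i) x - v (T i) x) = fun _ => (0 : R3) := fun i => by
    funext x
    rw [hend i, sub_self]
  refine ⟨_, _, _, P, hend, fun i => ⟨?_, fun t ht => ?_, ?_, ?_, fun h3 t ht => ?_⟩⟩
  · rw [setLIntegral_congr (Ioo_ae_eq_Icc (a := T i) (b := T (i + 1))).symm]
    refine le_trans (le_of_eq (setLIntegral_congr_fun measurableSet_Ioo fun t ht => ?_)) (hi i)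
    have e : idx T t = i := idx_eq hT ht.1.le ht.2
    simp only [e]
  · rcases ht.2.lt_or_eq with h4 | h4
    · have e : idx T t = i := idx_eq hT ht.1 h4
      show Nc (s i) (fun x => u (idx T t) t x - v t x) ≤ _
      rw [e]
      exact hcr i t ht
    · show Nc (s i) (fun x => u (idx T t) t x - v t x) ≤ _
      rw [h4, hzero (i + 1), Nc_zero (by linarith [hs i])]
      exact bot_le
  · rw [setLIntegral_congr (Ioo_ae_eq_Icc (a := T i) (b := T (i + 1))).symm]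
    refine le_trans (le_of_eq (setLIntegral_congr_fun measurableSet_Ioo fun t ht => ?_)) (hLr i)
    have e : idx T t = i := idx_eq hT ht.1.le ht.2
    simp only [e]
  · refine (hvol i).imp fun t ht hP => ?_
    show Wm (m i) (fun x => u (idx T t) t x - v t x) ≤ ENNReal.ofReal (ε i) ∧ f (idx T t) t = g t
    rcases ht.2.lt_or_eq with h4 | h4
    · have e : idx T t = i := idx_eq hT ht.1 h4
      rw [e]
      exact hP
    · have e : idx T t = i + 1 := by rw [h4]; exact idx_eq hT le_rfl (hT (Nat.lt_succ_self _))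
      obtain ⟨a1, a2, -⟩ := hl (i + 1) t (by rw [h4]; linarith [hη (i + 1)])
      obtain ⟨b1, b2, -⟩ := hr i t (by rw [h4]; linarith [hη i])
      rw [e, a1, a2, ← b1, ← b2]
      exact hP
  · rcases ht.2.lt_or_eq with h4 | h4
    · have e : idx T t = i := idx_eq hT ht.1 h4
      simp only [e]
      exact hz i h3 _
    · have e : idx T t = i + 1 := by rw [h4]; exact idx_eq hT le_rfl (hT (Nat.lt_succ_self _))
      simp only [e]
      rw [h4]
      obtain ⟨e1, e2, -⟩ := hl (i + 1) (T (i + 1)) (by linarith [hη (i + 1)])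
      rw [e1, e2, (h3 (T (i + 1)) ⟨(hT (Nat.lt_succ_self i)).le, le_rfl⟩).1]
      exact ⟨Rs_zero, rfl⟩

end Pool.Agent.U162.SF
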